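import Pool.Agent.T9h34.G.SpreadLemma

/-!
The spread lemma for product noise.
-/

namespace Pool.Agent.T9h34.G

open Finset

variable {X : Type*} [Fintype X] [DecidableEq X] {ι : Type*}

open Classical in
theorem bad_le (I : Finset ι) (F : ι → Finset X) (z : Finset X) (T : ι → Finset X)
    (hT : ∀ i ∈ I, (∃ j ∈ I, F j ⊆ F i ∪ z ∧ T i = F j \ z) ∧
      ∀ j' ∈ I, F j' ⊆ F i ∪ z → (T i).card ≤ (F j' \ z).card)
    {k : ℕ} (hk : ∀ i ∈ I, (F i).card ≤ k) {N R : ℝ}
    (hdeg : ∀ K : Finset X, K.Nonempty →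
      ((I.filter (fun i => K ⊆ F i)).card : ℝ) ≤ N / R ^ K.card) (h : ℕ) :
    ((I.filter (fun i => h < (T i).card)).card : ℝ) ≤
      ∑ t ∈ Finset.Ioc h k, (N / R ^ t) * (((univ : Finset (Finset X)).filter
        (fun U => U.card = t ∧ Fr I F z U)).card : ℝ) := by
  have hTF : ∀ i ∈ I, T i ⊆ F i := by
    intro i hi x hx
    obtain ⟨⟨j, _, hj, hTj⟩, _⟩ := hT i hi
    rw [hTj, Finset.mem_sdiff] at hx
    rcases Finset.mem_union.1 (hj hx.1) with h1 | h1
    · exact h1
    · exact absurd h1 hx.2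
  have hsub : I.filter (fun i => h < (T i).card) ⊆
      (Finset.Ioc h k).biUnion (fun t => ((univ : Finset (Finset X)).filter
        (fun U => U.card = t ∧ Fr I F z U)).biUnion (fun U => I.filter (fun i => U ⊆ F i))) := by
    intro i hi
    rw [Finset.mem_filter] at hi
    rw [Finset.mem_biUnion]
    refine ⟨(T i).card, ?_, ?_⟩
    · rw [Finset.mem_Ioc]
      exact ⟨hi.2, (Finset.card_le_card (hTF i hi.1)).trans (hk i hi.1)⟩
    · rw [Finset.mem_biUnion]
      refine ⟨T i, ?_, ?_⟩
      · rw [Finset.mem_filter]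
        exact ⟨Finset.mem_univ _, rfl, i, hi.1, (hT i hi.1).1, (hT i hi.1).2⟩
      · rw [Finset.mem_filter]
        exact ⟨hi.1, hTF i hi.1⟩
  have h1 := (Finset.card_le_card hsub).trans Finset.card_biUnion_le
  have h2 : ((I.filter (fun i => h < (T i).card)).card : ℝ) ≤
      ∑ t ∈ Finset.Ioc h k, ((((univ : Finset (Finset X)).filter
        (fun U => U.card = t ∧ Fr I F z U)).biUnion
          (fun U => I.filter (fun i => U ⊆ F i))).card : ℝ) := by
    exact_mod_cast h1
  refine h2.trans (Finset.sum_le_sum fun t ht => ?_)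
  rw [Finset.mem_Ioc] at ht
  have h3 : ((((univ : Finset (Finset X)).filter
        (fun U => U.card = t ∧ Fr I F z U)).biUnion
          (fun U => I.filter (fun i => U ⊆ F i))).card : ℝ) ≤
      ∑ U ∈ (univ : Finset (Finset X)).filter (fun U => U.card = t ∧ Fr I F z U),
        ((I.filter (fun i => U ⊆ F i)).card : ℝ) := by
    exact_mod_cast Finset.card_biUnion_le
  refine h3.trans ?_
  have h4 : ∀ U ∈ (univ : Finset (Finset X)).filter (fun U => U.card = t ∧ Fr I F z U),
      ((I.filter (fun i => U ⊆ F i)).card : ℝ) ≤ N / R ^ t := by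
    intro U hU
    rw [Finset.mem_filter] at hU
    have h5 := hdeg U (Finset.card_pos.1 (by omega))
    rwa [hU.2.1] at h5
  refine (Finset.sum_le_sum h4).trans (le_of_eq ?_)
  rw [Finset.sum_const, nsmul_eq_mul, mul_comm]

theorem choose_le_four {k t : ℕ} (h : k / 2 < t) : (k.choose t : ℝ) ≤ 4 ^ t := by
  have h1 : k.choose t ≤ 2 ^ k := Nat.choose_le_two_pow k t
  have h2 : 2 ^ k ≤ 2 ^ (2 * t) := Nat.pow_le_pow_right (by norm_num) (by omega)
  have h3 : (2 : ℕ) ^ (2 * t) = 4 ^ t := by
    rw [pow_mul]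
    norm_num
  rw [h3] at h2
  exact_mod_cast h1.trans h2

open Classical in
theorem Ez_bad_le {D : ℕ} (hD : 0 < D) (I : Finset ι) (F : ι → Finset X) (k : ℕ)
    (hk : ∀ i ∈ I, (F i).card ≤ k) {N R : ℝ} (hN : 0 ≤ N) (hR : 0 < R) (hDR : 8 * (D : ℝ) ≤ R) :
    Ez D (fun z => ∑ t ∈ Finset.Ioc (k / 2) k, (N / R ^ t) * (((univ : Finset (Finset X)).filter
        (fun U => U.card = t ∧ Fr I F z U)).card : ℝ)) ≤ 8 * D / R * N := by
  rw [Ez_sum]
  have h1 : ∀ t ∈ Finset.Ioc (k / 2) k, Ez D (fun z => (N / R ^ t) *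
      (((univ : Finset (Finset X)).filter (fun U => U.card = t ∧ Fr I F z U)).card : ℝ)) ≤
        N * (4 * D / R) ^ t := by
    intro t ht
    rw [Finset.mem_Ioc] at ht
    rw [Ez_const_mul]
    have h2 := frag_bound hD I F k t hk
    have h3 : (0 : ℝ) ≤ N / R ^ t := by positivity
    refine (mul_le_mul_of_nonneg_left h2 h3).trans ?_
    have h4 := choose_le_four ht.1
    have h5 : (0 : ℝ) ≤ (D : ℝ) ^ t := by positivity
    refine (mul_le_mul_of_nonneg_left (mul_le_mul_of_nonneg_left h4 h5) h3).trans (le_of_eq ?_)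
    rw [div_pow, mul_pow]
    ring
  refine (Finset.sum_le_sum h1).trans ?_
  rw [← Finset.mul_sum]
  have hy0 : (0 : ℝ) ≤ 4 * D / R := by positivity
  have hy : 4 * (D : ℝ) / R ≤ 1 / 2 := by
    rw [div_le_iff₀ hR]
    linarith
  have h6 := mul_le_mul_of_nonneg_left (geom_le hy0 hy (k / 2) k) hN
  refine h6.trans (le_of_eq ?_)
  ring

open Classical in
/-- The spread lemma for `J` rounds of product noise. -/
theorem spread_rounds {D : ℕ} (hD : 0 < D) {N R : ℝ} (hN : 0 ≤ N) (hR : 0 < R)
    (hDR : 8 * (D : ℝ) ≤ R) (J : ℕ) :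
    ∀ (k : ℕ) (I : Finset ι) (F : ι → Finset X), k < 2 ^ J → (∀ i ∈ I, (F i).card ≤ k) →
      (∀ K : Finset X, K.Nonempty →
        ((I.filter (fun i => K ⊆ F i)).card : ℝ) ≤ N / R ^ K.card) →
      (I.card : ℝ) * En D J (fun W => ind (¬ ∃ i ∈ I, F i ⊆ W)) ≤ J * (8 * D / R * N) := by
  induction J with
  | zero =>
    intro k I F hk2 hk _
    simp only [En, Nat.cast_zero, zero_mul]
    by_cases hI : I.Nonempty
    · obtain ⟨i, hi⟩ := hI
      have h1 : F i = ∅ := by
        rw [← Finset.card_eq_zero]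
        have := hk i hi
        simp only [pow_zero] at hk2
        omega
      rw [ind_not (p := ¬ ∃ i ∈ I, F i ⊆ ∅)]
      · simp
      · push Not
        exact ⟨i, hi, by rw [h1]⟩
    · rw [Finset.not_nonempty_iff_eq_empty] at hI
      rw [hI]
      simp
  | succ J ih =>
    intro k I F hk2 hk hdeg
    have hpt : ∀ z : Finset X, (I.card : ℝ) * En D J (fun U => ind (¬ ∃ i ∈ I, F i ⊆ z ∪ U)) ≤
        J * (8 * D / R * N) + ∑ t ∈ Finset.Ioc (k / 2) k, (N / R ^ t) *
          (((univ : Finset (Finset X)).filter (fun U => U.card = t ∧ Fr I F z U)).card : ℝ) := by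
      intro z
      obtain ⟨T, hT⟩ := exists_frag I F z
      set I' := I.filter (fun i => (T i).card ≤ k / 2) with hI'
      set q := En D J (fun U => ind (¬ ∃ i ∈ I, F i ⊆ z ∪ U)) with hq
      have hq1 : q ≤ 1 := by
        have h1 := En_mono (D := D) J (F := fun U => ind (¬ ∃ i ∈ I, F i ⊆ z ∪ U))
          (G := fun _ => (1 : ℝ)) (fun U => ind_le_one _)
        rwa [En_const hD] at h1
      have hq0 : 0 ≤ q := by
        have h1 := En_mono (D := D) J (F := fun _ => (0 : ℝ))
          (G := fun U => ind (¬ ∃ i ∈ I, F i ⊆ z ∪ U)) (fun U => ind_nonneg _)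
        rwa [En_const hD] at h1
      have hIH := ih (k / 2) I' T (by rw [pow_succ] at hk2; omega)
        (fun i hi => (Finset.mem_filter.1 hi).2) (by
          intro K hK
          refine le_trans ?_ (hdeg K hK)
          have : I'.filter (fun i => K ⊆ T i) ⊆ I.filter (fun i => K ⊆ F i) := by
            intro i hi
            rw [Finset.mem_filter, hI', Finset.mem_filter] at hi
            rw [Finset.mem_filter]
            refine ⟨hi.1.1, hi.2.trans ?_⟩
            obtain ⟨⟨j, _, hj, hTj⟩, _⟩ := hT i hi.1.1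
            intro x hx
            rw [hTj, Finset.mem_sdiff] at hx
            rcases Finset.mem_union.1 (hj hx.1) with h1 | h1
            · exact h1
            · exact absurd h1 hx.2
          exact_mod_cast Finset.card_le_card this)
      have hq2 : q ≤ En D J (fun W => ind (¬ ∃ i ∈ I', T i ⊆ W)) := by
        apply En_mono
        intro U
        apply ind_mono
        rintro h1 ⟨i, hi, hiU⟩
        apply h1
        obtain ⟨⟨j, hj, _, hTj⟩, _⟩ := hT i (Finset.mem_filter.1 hi).1
        refine ⟨j, hj, ?_⟩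
        intro x hx
        rw [Finset.mem_union]
        by_cases hxz : x ∈ z
        · exact Or.inl hxz
        · right
          apply hiU
          rw [hTj, Finset.mem_sdiff]
          exact ⟨hx, hxz⟩
      have hbad := bad_le I F z T hT hk hdeg (k / 2)
      have hcard : (I.card : ℝ) = (I'.card : ℝ) + ((I.filter (fun i => k / 2 < (T i).card)).card : ℝ) := by
        have h1 := Finset.card_filter_add_card_filter_not (s := I) (fun i => (T i).card ≤ k / 2)
        simp only [not_le] at h1
        exact_mod_cast h1.symm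
      rw [hcard, add_mul]
      have h1 : (I'.card : ℝ) * q ≤ J * (8 * D / R * N) :=
        (mul_le_mul_of_nonneg_left hq2 (by positivity)).trans hIH
      have h2 : ((I.filter (fun i => k / 2 < (T i).card)).card : ℝ) * q ≤
          ((I.filter (fun i => k / 2 < (T i).card)).card : ℝ) * 1 :=
        mul_le_mul_of_nonneg_left hq1 (by positivity)
      linarith
    simp only [En]
    rw [← Ez_const_mul]
    refine (Ez_mono hpt).trans ?_
    rw [Ez_add, Ez_const hD]
    have h3 := Ez_bad_le hD I F k hk hN hR hDR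
    push_cast
    linarith

end Pool.Agent.T9h34.G
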