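import Pool.Agent.T9h34.G.Closed
import Pool.Agent.T9h34.Approx

/-!
Closed approximators for circuits with AND and OR gates only, general noise.
-/

namespace Pool.Agent.T9h34.G

open Finset

variable {X : Type*} [Fintype X] [DecidableEq X] {Ω : Type*} [Fintype Ω] {N : NoiseOp X}

theorem approx_gates {L e : ℕ} {B : ℝ} (hL : 0 < L) (he : 1 ≤ e) (hB1 : 1 ≤ B) (hcov : Covers N (2 * e) B)
    (v : Ω → Finset X) {κ : ℝ} (hκ : 0 ≤ κ) (hsp : Spread v (2 * e) κ) (hBκ : B * κ ≤ 1 / 4)
    (gs : List (Gate X)) (hm : ∀ g ∈ gs, g.IsMono) :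
    ∃ 𝒜 : ℕ → Finset (Finset X), (∀ j, 𝒜 j ⊆ smalls e) ∧
      Ev v (fun Z => ind (∃ j < gs.length,
        (runGates (chi Z) gs).getD j false = true ∧ ¬ cov (𝒜 j) Z))
          ≤ gs.length * (1 / 4 : ℝ) ^ e ∧
      ∀ T : Finset X, N.iter L (fun W => ind (∃ j < gs.length,
        cov (𝒜 j) (T ∪ W) ∧ (runGates (chi (T ∪ W)) gs).getD j false = false))
          ≤ gs.length * (((smalls (X := X) (2 * e)).card : ℝ) * (1 / 2 : ℝ) ^ L) := by
  induction gs using List.reverseRecOn with
  | nil =>
    refine ⟨fun _ => ∅, fun _ => by simp, ?_, ?_⟩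
    · have : (fun Z : Finset X => ind (∃ j < ([] : List (Gate X)).length,
          (runGates (chi Z) []).getD j false = true ∧ ¬ cov (∅ : Finset (Finset X)) Z))
          = fun _ => (0 : ℝ) * 1 := by
        funext Z
        rw [ind_not (by simp)]; ring
      rw [this, Ev_const_mul]
      simp
    · intro T
      have : (fun W : Finset X => ind (∃ j < ([] : List (Gate X)).length,
          cov (∅ : Finset (Finset X)) (T ∪ W) ∧
            (runGates (chi (T ∪ W)) []).getD j false = false))
          = fun _ => (0 : ℝ) := by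
        funext Z
        rw [ind_not (by simp)]
      rw [this, N.iter_const]
      simp
  | append_singleton gs g ih =>
    have hgs : ∀ g ∈ gs, g.IsMono := fun g' hg' => hm g' (by simp [hg'])
    have hg : g.IsMono := hm g (by simp)
    obtain ⟨𝒜, h1, h2, h3⟩ := ih hgs
    obtain ⟨𝒞, hc1, hc2, hc3, hc4⟩ := exists_closure N (L := L) (gateFam 𝒜 gs.length g)
      (gateFam_sub he h1 g)
    set 𝒩 : Finset (Finset X) := (mins 𝒞).filter (fun S => S.card ≤ e) with h𝒩
    have hcov𝒩 : ∀ Z, cov 𝒩 Z → cov 𝒞 Z := by
      rintro Z ⟨S, hS, hSZ⟩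
      rw [h𝒩, Finset.mem_filter] at hS
      exact cov_mins.1 ⟨S, hS.1, hSZ⟩
    refine ⟨fun j => if j = gs.length then 𝒩 else 𝒜 j, ?_, ?_, ?_⟩
    · intro j
      by_cases hj : j = gs.length
      · simp only [if_pos hj]
        intro S hS
        rw [h𝒩, Finset.mem_filter] at hS
        exact mem_smalls.2 hS.2
      · simp only [if_neg hj]
        exact h1 j
    · have hpt : ∀ Z : Finset X, ind (∃ j < (gs ++ [g]).length,
          (runGates (chi Z) (gs ++ [g])).getD j false = true ∧
            ¬ cov (if j = gs.length then 𝒩 else 𝒜 j) Z)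
          ≤ ind (∃ j < gs.length, (runGates (chi Z) gs).getD j false = true ∧ ¬ cov (𝒜 j) Z)
            + ind (∃ S ∈ mins 𝒞, e < S.card ∧ S.card ≤ 2 * e ∧ S ⊆ Z) := by
        intro Z
        refine le_trans (ind_mono ?_) (ind_or_le _ _)
        rintro ⟨j, hj, hv, hnc⟩
        by_cases hbad : ∃ j < gs.length,
            (runGates (chi Z) gs).getD j false = true ∧ ¬ cov (𝒜 j) Z
        · exact Or.inl hbad
        · right
          push Not at hbad
          rw [runGates_append] at hv
          have hlen : (gs ++ [g]).length = gs.length + 1 := by simp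
          rw [hlen] at hj
          rcases lt_or_eq_of_le (Nat.lt_succ_iff.1 hj) with hj' | hj'
          · rw [getD_append_lt (by rw [length_runGates]; exact hj')] at hv
            rw [if_neg (by omega)] at hnc
            exact absurd (hbad j hj' hv) hnc
          · rw [getD_append_eq (by rw [length_runGates]; exact hj')] at hv
            rw [if_pos hj'] at hnc
            have hF := gate_pos (length_runGates (chi Z) gs) hbad g hg hv
            have hC : cov 𝒞 Z := cov_mono hc1 (le_refl _) hF
            obtain ⟨S, hS, hSZ⟩ := cov_mins.2 hC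
            refine ⟨S, hS, ?_, ?_, hSZ⟩
            · by_contra hle
              push Not at hle
              apply hnc
              exact ⟨S, by rw [h𝒩, Finset.mem_filter]; exact ⟨hS, hle⟩, hSZ⟩
            · exact mem_smalls.1 (hc2 (Finset.mem_filter.1 hS).1)
      refine le_trans (Ev_mono v hpt) ?_
      rw [Ev_add]
      have h4 := Ev_mins_le hL hB1 hcov hc3 v hκ hsp hBκ e
      have hlen : ((gs ++ [g]).length : ℝ) = gs.length + 1 := by simp
      rw [hlen]
      linarith
    · intro T
      have hpt : ∀ W : Finset X, ind (∃ j < (gs ++ [g]).length,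
          cov (if j = gs.length then 𝒩 else 𝒜 j) (T ∪ W) ∧
          (runGates (chi (T ∪ W)) (gs ++ [g])).getD j false = false)
          ≤ ind (∃ j < gs.length, cov (𝒜 j) (T ∪ W) ∧
              (runGates (chi (T ∪ W)) gs).getD j false = false)
            + ind (cov 𝒞 (T ∪ W) ∧ ¬ cov (gateFam 𝒜 gs.length g) (T ∪ W)) := by
        intro W
        refine le_trans (ind_mono ?_) (ind_or_le _ _)
        rintro ⟨j, hj, hcv, hv⟩
        by_cases hbad : ∃ j < gs.length, cov (𝒜 j) (T ∪ W) ∧
            (runGates (chi (T ∪ W)) gs).getD j false = false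
        · exact Or.inl hbad
        · right
          push Not at hbad
          have hbad' : ∀ j < gs.length, cov (𝒜 j) (T ∪ W) →
              (runGates (chi (T ∪ W)) gs).getD j false = true := by
            intro j hj hc
            have := hbad j hj hc
            simpa using this
          rw [runGates_append] at hv
          have hlen : (gs ++ [g]).length = gs.length + 1 := by simp
          rw [hlen] at hj
          rcases lt_or_eq_of_le (Nat.lt_succ_iff.1 hj) with hj' | hj'
          · rw [getD_append_lt (by rw [length_runGates]; exact hj')] at hv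
            rw [if_neg (by omega)] at hcv
            exact absurd hv (by rw [hbad' j hj' hcv]; simp)
          · rw [getD_append_eq (by rw [length_runGates]; exact hj')] at hv
            rw [if_pos hj'] at hcv
            refine ⟨hcov𝒩 _ hcv, ?_⟩
            intro hF
            have := gate_neg hbad' g hF
            rw [this] at hv
            exact absurd hv (by simp)
      refine le_trans (N.iter_mono L hpt) ?_
      rw [N.iter_add]
      have h4 := h3 T
      have h5 := hc4 T
      have h6 : ((smalls (X := X) (2 * e) \ gateFam 𝒜 gs.length g).card : ℝ)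
          ≤ (smalls (X := X) (2 * e)).card := by
        exact_mod_cast Finset.card_le_card Finset.sdiff_subset
      have h7 : ((smalls (X := X) (2 * e) \ gateFam 𝒜 gs.length g).card : ℝ) * (1 / 2 : ℝ) ^ L
          ≤ (smalls (X := X) (2 * e)).card * (1 / 2 : ℝ) ^ L :=
        mul_le_mul_of_nonneg_right h6 (by positivity)
      have hlen : ((gs ++ [g]).length : ℝ) = gs.length + 1 := by simp
      rw [hlen]
      linarith

/-- **Domination lemma.** If a circuit with AND and OR gates only accepts a spread random set
with some probability, then it accepts the noise with at least half that probability, up to an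
error proportional to its size. -/
theorem domination {L e : ℕ} {B : ℝ} (hL : 0 < L) (he : 1 ≤ e) (hB1 : 1 ≤ B) (hcov : Covers N (2 * e) B)
    (v : Ω → Finset X) {κ : ℝ} (hκ : 0 ≤ κ) (hsp : Spread v (2 * e) κ) (hBκ : B * κ ≤ 1 / 4)
    (C : Circuit X) (hm : ∀ g ∈ C.gates, g.IsMono) :
    Ev v (fun Z => ind (C.eval (chi Z) = true))
      ≤ 3 * N.iter (L + 1) (fun U => ind (C.eval (chi U) = true))
        + (C.size * (1 / 4 : ℝ) ^ e
          + 3 * ((C.size + 1) * (((smalls (X := X) (2 * e)).card : ℝ) * (1 / 2 : ℝ) ^ L))) := by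
  obtain ⟨𝒜, h1, h2, h3⟩ := approx_gates hL he hB1 hcov v hκ hsp hBκ C.gates hm
  set n := C.gates.length with hn
  set ℱ := srcFam 𝒜 n C.out with hℱ
  have hFsub : ℱ ⊆ smalls (2 * e) := by
    intro S hS
    have := mem_smalls.1 (srcFam_sub he h1 C.out hS)
    rw [mem_smalls]; omega
  obtain ⟨𝒞, hc1, hc2, hc3, hc4⟩ := exists_closure N (L := L) ℱ hFsub
  set δ := ((smalls (X := X) (2 * e)).card : ℝ) * (1 / 2 : ℝ) ^ L with hδ
  have hδ0 : 0 ≤ δ := by positivity
  -- positive side
  have hpos : Ev v (fun Z => ind (C.eval (chi Z) = true))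
      ≤ n * (1 / 4 : ℝ) ^ e + Ev v (fun Z => ind (cov 𝒞 Z)) := by
    have hpt : ∀ Z : Finset X, ind (C.eval (chi Z) = true)
        ≤ ind (∃ j < C.gates.length,
            (runGates (chi Z) C.gates).getD j false = true ∧ ¬ cov (𝒜 j) Z)
          + ind (cov 𝒞 Z) := by
      intro Z
      refine le_trans (ind_mono ?_) (ind_or_le _ _)
      intro hv
      by_cases hbad : ∃ j < C.gates.length,
          (runGates (chi Z) C.gates).getD j false = true ∧ ¬ cov (𝒜 j) Z
      · exact Or.inl hbad
      · right
        push Not at hbad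
        exact cov_mono hc1 (le_refl _) (src_pos (length_runGates _ _) hbad C.out hv)
    refine le_trans (Ev_mono v hpt) ?_
    rw [Ev_add]
    linarith
  -- negative side
  have hneg : ∀ z : Finset X, ind (cov 𝒞 z) ≤
      N.iter L (fun W => ind (C.eval (chi (z ∪ W)) = true)) + (n + 1) * δ := by
    intro z
    by_cases hz : cov 𝒞 z
    · rw [ind_of hz]
      have hpt : ∀ W : Finset X, (1 : ℝ) ≤ ind (C.eval (chi (z ∪ W)) = true)
          + (ind (∃ j < C.gates.length, cov (𝒜 j) (z ∪ W) ∧
              (runGates (chi (z ∪ W)) C.gates).getD j false = false)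
            + ind (cov 𝒞 (z ∪ W) ∧ ¬ cov ℱ (z ∪ W))) := by
        intro W
        by_cases hv : C.eval (chi (z ∪ W)) = true
        · rw [ind_of hv]
          linarith [ind_nonneg (∃ j < C.gates.length, cov (𝒜 j) (z ∪ W) ∧
              (runGates (chi (z ∪ W)) C.gates).getD j false = false),
            ind_nonneg (cov 𝒞 (z ∪ W) ∧ ¬ cov ℱ (z ∪ W))]
        · by_cases hbad : ∃ j < C.gates.length, cov (𝒜 j) (z ∪ W) ∧
              (runGates (chi (z ∪ W)) C.gates).getD j false = false
          · rw [ind_of hbad]
            linarith [ind_nonneg (C.eval (chi (z ∪ W)) = true),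
              ind_nonneg (cov 𝒞 (z ∪ W) ∧ ¬ cov ℱ (z ∪ W))]
          · have hbad' : ∀ j < C.gates.length, cov (𝒜 j) (z ∪ W) →
                (runGates (chi (z ∪ W)) C.gates).getD j false = true := by
              push Not at hbad
              intro j hj hc
              simpa using hbad j hj hc
            have : cov 𝒞 (z ∪ W) ∧ ¬ cov ℱ (z ∪ W) := by
              refine ⟨cov_mono (le_refl _) Finset.subset_union_left hz, ?_⟩
              intro hF
              exact hv (src_neg hbad' C.out hF)
            rw [ind_of this]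
            linarith [ind_nonneg (C.eval (chi (z ∪ W)) = true),
              ind_nonneg (∃ j < C.gates.length, cov (𝒜 j) (z ∪ W) ∧
                (runGates (chi (z ∪ W)) C.gates).getD j false = false)]
      have h4 := N.iter_mono L hpt
      rw [N.iter_const, N.iter_add, N.iter_add] at h4
      have h5 := h3 z
      have h6 := hc4 z
      have h7 : ((smalls (X := X) (2 * e) \ ℱ).card : ℝ) * (1 / 2 : ℝ) ^ L ≤ δ := by
        rw [hδ]
        apply mul_le_mul_of_nonneg_right _ (by positivity)
        exact_mod_cast Finset.card_le_card Finset.sdiff_subset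
      rw [← hn] at h4
      linarith
    · rw [ind_not hz]
      have : 0 ≤ N.iter L (fun W => ind (C.eval (chi (z ∪ W)) = true)) :=
        N.iter_nonneg L (fun W => ind_nonneg _)
      positivity
  have hneg' : N.E (fun z => ind (cov 𝒞 z))
      ≤ N.iter (L + 1) (fun U => ind (C.eval (chi U) = true)) + (n + 1) * δ := by
    refine le_trans (N.mono hneg) ?_
    rw [N.add', N.const']
    simp only [NoiseOp.iter]
    linarith
  have hcmp := Ev_cov_le hL hB1 hcov hc3 hc2 v hκ hsp hBκ
  have hsize : (C.size : ℝ) = n := by rw [hn]; rfl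
  rw [hsize]
  linarith

end Pool.Agent.T9h34.G
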