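import Pool.Agent.T9h34.G.Chain

/-!
The average-case form of the abstract lower bound, general noise.
-/

namespace Pool.Agent.T9h34.G

open Finset

variable {X : Type*} [Fintype X] [DecidableEq X] {Ω : Type*} [Fintype Ω] {N : NoiseOp X}

variable {L e : ℕ} {B κ : ℝ} {v : Ω → Finset X}

/-- The expected number of correct answers, over a random level, on the noise set and on the
noise set with a positive test added. -/
noncomputable def score (N : NoiseOp X) (L r : ℕ) (v : Ω → Finset X) (g : Finset X → ℝ) : ℝ :=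
  ∑ j ∈ Finset.range r, N.iter (j * (L + 1)) (fun U => g U + Ev v (fun V => g (U ∪ V)))

theorem score_le [Nonempty Ω] (hL : 0 < L) (he : 1 ≤ e) (hB1 : 1 ≤ B) (hcov : Covers N (2 * e) B) (hκ : 0 ≤ κ)
    (hsp : Spread v (2 * e) κ) (hBκ : B * κ ≤ 1 / 4)
    (r s d : ℕ) {η : ℝ} (hfew : ∀ j < r, N.iter (j * (L + 1)) (fun U => ind (∃ ω, v ω ⊆ U)) ≤ η)
    (C : Circuit X) (hs : C.size ≤ s) (hd : C.FanIn d) :
    score N L r v (fun Z => ind (C.eval (chi Z) = true ↔ ∃ ω, v ω ⊆ Z))
      ≤ r + (2 : ℝ) ^ C.numOther * (1 + d) * (3 + r * err X L e s)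
        + r * η := by
  have hup := Mf_circuit hL he hB1 hcov hκ hsp hBκ r s d C.numOther C rfl hs hd
  have hpt : ∀ U : Finset X, ind (C.eval (chi U) = true ↔ ∃ ω, v ω ⊆ U)
      + Ev v (fun V => ind (C.eval (chi (U ∪ V)) = true ↔ ∃ ω, v ω ⊆ U ∪ V))
      ≤ 1 + (Ev v (fun V => ind (C.eval (chi U) ≠ C.eval (chi (U ∪ V))))
        + ind (∃ ω, v ω ⊆ U)) := by
    intro U
    by_cases hU : ∃ ω, v ω ⊆ U
    · rw [ind_of hU]
      have h2 := Ev_nonneg v (F := fun V => ind (C.eval (chi U) ≠ C.eval (chi (U ∪ V))))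
        (fun z => ind_nonneg _)
      have h3 := ind_le_one (C.eval (chi U) = true ↔ ∃ ω, v ω ⊆ U)
      have h4 := Ev_le_one v
        (F := fun V => ind (C.eval (chi (U ∪ V)) = true ↔ ∃ ω, v ω ⊆ U ∪ V))
        (fun z => ind_le_one _)
      linarith
    · have h2 : 0 ≤ ind (∃ ω, v ω ⊆ U) := ind_nonneg _
      have h3 : ind (C.eval (chi U) = true ↔ ∃ ω, v ω ⊆ U)
          + Ev v (fun V => ind (C.eval (chi (U ∪ V)) = true ↔ ∃ ω, v ω ⊆ U ∪ V))
          ≤ Ev v (fun V => 1 + ind (C.eval (chi U) ≠ C.eval (chi (U ∪ V)))) := by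
        rw [← Ev_const v (ind (C.eval (chi U) = true ↔ ∃ ω, v ω ⊆ U)), ← Ev_add]
        apply Ev_mono'
        intro ω
        have hW : ∃ ω', v ω' ⊆ U ∪ v ω := ⟨ω, Finset.subset_union_right⟩
        by_cases hne : C.eval (chi U) ≠ C.eval (chi (U ∪ v ω))
        · rw [ind_of hne]
          have h5 := ind_le_one (C.eval (chi U) = true ↔ ∃ ω, v ω ⊆ U)
          have h6 := ind_le_one (C.eval (chi (U ∪ v ω)) = true ↔ ∃ ω', v ω' ⊆ U ∪ v ω)
          linarith
        · rw [ind_not hne]
          push Not at hne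
          by_cases hc : C.eval (chi U) = true
          · rw [ind_not (p := C.eval (chi U) = true ↔ ∃ ω, v ω ⊆ U)
              (fun h => hU (h.1 hc))]
            have h6 := ind_le_one (C.eval (chi (U ∪ v ω)) = true ↔ ∃ ω', v ω' ⊆ U ∪ v ω)
            linarith
          · rw [ind_not (p := C.eval (chi (U ∪ v ω)) = true ↔ ∃ ω', v ω' ⊆ U ∪ v ω)
              (fun h => hc (by rw [hne]; exact h.2 hW))]
            have h5 := ind_le_one (C.eval (chi U) = true ↔ ∃ ω, v ω ⊆ U)
            linarith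
      rw [Ev_add, Ev_const] at h3
      linarith
  have hstep : ∀ j ∈ Finset.range r, N.iter (j * (L + 1))
      (fun U => ind (C.eval (chi U) = true ↔ ∃ ω, v ω ⊆ U)
        + Ev v (fun V => ind (C.eval (chi (U ∪ V)) = true ↔ ∃ ω, v ω ⊆ U ∪ V)))
      ≤ 1 + (N.iter (j * (L + 1)) (fun U => Ev v (fun V => ind (C.eval (chi U) ≠ C.eval (chi (U ∪ V)))))
        + η) := by
    intro j hj
    rw [Finset.mem_range] at hj
    refine le_trans (N.iter_mono _ hpt) ?_
    rw [N.iter_add, N.iter_const, N.iter_add]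
    have h3 := hfew j hj
    linarith
  unfold score
  refine le_trans (Finset.sum_le_sum hstep) ?_
  rw [Finset.sum_add_distrib, Finset.sum_add_distrib, Finset.sum_const, Finset.sum_const,
    Finset.card_range, nsmul_eq_mul, nsmul_eq_mul, mul_one]
  have hγ0 : 0 ≤ 3 + r * err X L e s := by
    have := err_nonneg (X := X) (L := L) (e := e) (s := s)
    positivity
  have h5 : ((2 : ℝ) ^ C.numOther * (1 + d) - d) * (3 + r * err X L e s)
      ≤ (2 : ℝ) ^ C.numOther * (1 + d) * (3 + r * err X L e s) := by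
    apply mul_le_mul_of_nonneg_right _ hγ0
    have : (0 : ℝ) ≤ d := by positivity
    linarith
  unfold Mf at hup
  linarith

/-- The weight of a point in the image of the score distribution. -/
noncomputable def pushW {β : Type*} (N : NoiseOp X) (L r : ℕ) (v : Ω → Finset X) (Φ : Finset X → β) (y : β) : ℝ :=
  score N L r v (fun Z => ind (Φ Z = y)) / (2 * r)

theorem score_mono {r : ℕ} {g h : Finset X → ℝ} (H : ∀ Z, g Z ≤ h Z) :
    score N L r v g ≤ score N L r v h := by
  unfold score
  apply Finset.sum_le_sum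
  intro j _
  apply N.iter_mono
  intro U
  exact add_le_add (H U) (Ev_mono v (fun V => H _))

theorem score_sum {α : Type*} (r : ℕ) (s : Finset α) (F : α → Finset X → ℝ) :
    score N L r v (fun Z => ∑ a ∈ s, F a Z) = ∑ a ∈ s, score N L r v (F a) := by
  unfold score
  rw [Finset.sum_comm]
  apply Finset.sum_congr rfl
  intro j _
  rw [← N.iter_sum]
  congr 1
  funext U
  rw [Finset.sum_add_distrib, Ev_sum]

theorem score_const_mul (r : ℕ) (c : ℝ) (g : Finset X → ℝ) :
    score N L r v (fun Z => c * g Z) = c * score N L r v g := by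
  unfold score
  rw [Finset.mul_sum]
  apply Finset.sum_congr rfl
  intro j _
  rw [← N.iter_const_mul]
  congr 1
  funext U
  rw [Ev_const_mul]
  ring

theorem score_one [Nonempty Ω] (r : ℕ) :
    score N L r v (fun _ => (1 : ℝ)) = 2 * r := by
  unfold score
  have : ∀ j ∈ Finset.range r, N.iter (j * (L + 1)) (fun _ : Finset X => (1 : ℝ)
      + Ev v (fun _ => (1 : ℝ))) = 2 := by
    intro j _
    rw [Ev_const, N.iter_const]
    norm_num
  rw [Finset.sum_congr rfl this]
  simp
  ring

theorem score_nonneg {r : ℕ} {g : Finset X → ℝ} (H : ∀ Z, 0 ≤ g Z) : 0 ≤ score N L r v g := by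
  unfold score
  apply Finset.sum_nonneg
  intro j _
  apply N.iter_nonneg
  intro U
  exact add_nonneg (H U) (Ev_nonneg v (fun V => H _))

theorem pushW_nonneg {β : Type*} {r : ℕ} (Φ : Finset X → β) (y : β) : 0 ≤ pushW N L r v Φ y := by
  unfold pushW
  exact div_nonneg (score_nonneg (fun Z => ind_nonneg _)) (by positivity)

theorem sum_pushW_mul {β : Type*} [Fintype β] (r : ℕ) (Φ : Finset X → β)
    (F : β → ℝ) :
    ∑ y, pushW N L r v Φ y * F y = score N L r v (fun Z => F (Φ Z)) / (2 * r) := by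
  classical
  have h1 : ∀ y : β, pushW N L r v Φ y * F y
      = score N L r v (fun Z => F y * ind (Φ Z = y)) / (2 * r) := by
    intro y
    unfold pushW
    rw [score_const_mul]
    ring
  simp only [h1]
  rw [← Finset.sum_div, ← score_sum]
  congr 2
  funext Z
  rw [Finset.sum_eq_single (Φ Z)]
  · rw [ind_of rfl, mul_one]
  · intro y _ hy
    rw [ind_not (Ne.symm hy), mul_zero]
  · intro h
    exact absurd (Finset.mem_univ _) h

theorem sum_pushW {β : Type*} [Fintype β] [Nonempty Ω] {r : ℕ} (hr : 0 < r)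
    (Φ : Finset X → β) : ∑ y, pushW N L r v Φ y = 1 := by
  have h := sum_pushW_mul (N := N) (v := v) (L := L) r Φ (fun _ => 1)
  simp only [mul_one] at h
  rw [h, score_one]
  have : (r : ℝ) ≠ 0 := by positivity
  field_simp

end Pool.Agent.T9h34.G
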