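import Pool.Agent.T9h34.G.Noise
import Pool.Agent.T9h34.Spread
import Pool.Agent.T9h34.Compare

/-!
Closed families for a general noise operator.
-/

namespace Pool.Agent.T9h34.G

open Finset

variable {X : Type*} [Fintype X] [DecidableEq X] (N : NoiseOp X)

/-- Closed families. -/
def Closed (L c : ℕ) (𝒞 : Finset (Finset X)) : Prop :=
  ∀ T : Finset X, T.card ≤ c → N.iter L (fun W => ind (¬ cov 𝒞 (T ∪ W))) < (1 / 2 : ℝ) ^ L → T ∈ 𝒞

theorem exists_closure {L c : ℕ} (ℱ : Finset (Finset X)) (hℱ : ℱ ⊆ smalls c) :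
    ∃ 𝒞 : Finset (Finset X), ℱ ⊆ 𝒞 ∧ 𝒞 ⊆ smalls c ∧ Closed N L c 𝒞 ∧
      ∀ T : Finset X, N.iter L (fun W => ind (cov 𝒞 (T ∪ W) ∧ ¬ cov ℱ (T ∪ W)))
        ≤ ((smalls c \ ℱ).card : ℝ) * (1 / 2 : ℝ) ^ L := by
  induction hn : (smalls c \ ℱ).card using Nat.strong_induction_on generalizing ℱ with
  | _ n ih =>
    by_cases hcl : Closed N L c ℱ
    · refine ⟨ℱ, le_refl _, hℱ, hcl, ?_⟩
      intro T
      have : (fun W : Finset X => ind (cov ℱ (T ∪ W) ∧ ¬ cov ℱ (T ∪ W))) = fun _ => 0 := by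
        funext W
        exact ind_not (by tauto)
      rw [this, N.iter_const]
      positivity
    · unfold Closed at hcl
      push Not at hcl
      obtain ⟨R, hRc, hRlt, hR⟩ := hcl
      have hsub : insert R ℱ ⊆ smalls c := by
        rw [Finset.insert_subset_iff]
        exact ⟨mem_smalls.2 hRc, hℱ⟩
      have hlt : (smalls c \ insert R ℱ).card + 1 = (smalls c \ ℱ).card := by
        have h1 : smalls c \ ℱ = insert R (smalls c \ insert R ℱ) := by
          ext S
          simp only [Finset.mem_sdiff, Finset.mem_insert]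
          constructor
          · intro ⟨h1, h2⟩
            by_cases hS : S = R
            · exact Or.inl hS
            · exact Or.inr ⟨h1, by tauto⟩
          · rintro (h1 | ⟨h1, h2⟩)
            · subst h1; exact ⟨mem_smalls.2 hRc, hR⟩
            · exact ⟨h1, by tauto⟩
        rw [h1, Finset.card_insert_of_notMem]
        simp
      obtain ⟨𝒞, h1, h2, h3, h4⟩ := ih _ (by omega) (insert R ℱ) hsub rfl
      refine ⟨𝒞, (Finset.subset_insert _ _).trans h1, h2, h3, ?_⟩
      intro T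
      have h5 : ∀ W : Finset X, ind (cov 𝒞 (T ∪ W) ∧ ¬ cov ℱ (T ∪ W))
          ≤ ind (cov 𝒞 (T ∪ W) ∧ ¬ cov (insert R ℱ) (T ∪ W)) + ind (¬ cov ℱ (R ∪ W)) := by
        intro W
        refine le_trans (ind_mono ?_) (ind_or_le _ _)
        rintro ⟨ha, hb⟩
        by_cases hc : cov (insert R ℱ) (T ∪ W)
        · right
          intro hd
          apply hb
          obtain ⟨S, hS, hSW⟩ := hc
          rw [Finset.mem_insert] at hS
          rcases hS with hS | hS
          · subst hS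
            refine cov_mono (le_refl _) ?_ hd
            exact Finset.union_subset hSW Finset.subset_union_right
          · exact ⟨S, hS, hSW⟩
        · exact Or.inl ⟨ha, hc⟩
      refine le_trans (N.iter_mono L h5) ?_
      rw [N.iter_add]
      have h6 := h4 T
      have h7 : ((smalls (X := X) c \ ℱ).card : ℝ) = (smalls (X := X) c \ insert R ℱ).card + 1 := by
        rw [← hlt]; push_cast; ring
      rw [← hn, h7]
      calc _ ≤ ((smalls (X := X) c \ insert R ℱ).card : ℝ) * (1 / 2 : ℝ) ^ L + (1 / 2 : ℝ) ^ L :=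
            add_le_add h6 hRlt.le
        _ = _ := by ring

/-- The noise covers large families of sets with small degrees. -/
def Covers (c : ℕ) (B : ℝ) : Prop :=
  ∀ (n : ℕ) (𝒯 : Finset (Finset X)), n ≤ c → (∀ T ∈ 𝒯, T.card = n) →
    (∀ K : Finset X, K.Nonempty → ((𝒯.filter (fun T => K ⊆ T)).card : ℝ) ≤ B ^ (n - K.card)) →
    (B ^ n < 𝒯.card → 1 - N.E (fun z => ind (∃ T ∈ 𝒯, T ⊆ z)) < 1 / 2) ∧
      (𝒯.card : ℝ) * (1 - N.E (fun z => ind (∃ T ∈ 𝒯, T ⊆ z)))
        ≤ 4 * N.E (fun z => ind (∃ T ∈ 𝒯, T ⊆ z)) * B ^ n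

variable {N}

theorem card_minsAt_le {L c : ℕ} {B : ℝ} (hL : 0 < L) (hB1 : 1 ≤ B) (hcov : Covers N c B)
    {𝒞 : Finset (Finset X)} (hcl : Closed N L c 𝒞) {k : ℕ} (hk : k ≤ c) (J : Finset X) :
    ((minsAt 𝒞 k J).card : ℝ) ≤ B ^ (k - J.card) := by
  induction hn : k - J.card using Nat.strong_induction_on generalizing J with
  | _ n ih =>
    have hB0 : (0 : ℝ) ≤ B ^ n := by positivity
    have hB1n : (1 : ℝ) ≤ B ^ n := one_le_pow₀ hB1
    by_cases hJk : k < J.card
    · have : minsAt 𝒞 k J = ∅ := by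
        rw [Finset.eq_empty_iff_forall_notMem]
        intro S hS
        simp only [minsAt, Finset.mem_filter] at hS
        have := Finset.card_le_card hS.2.2
        omega
      rw [this]; simpa using hB0
    by_cases hJ : J ∈ 𝒞
    · have : minsAt 𝒞 k J ⊆ {J} := by
        intro S hS
        simp only [minsAt, mins, Finset.mem_filter] at hS
        rw [Finset.mem_singleton]
        exact (hS.1.2 J hJ hS.2.2).symm
      have h2 := Finset.card_le_card this
      rw [Finset.card_singleton] at h2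
      have h3 : ((minsAt 𝒞 k J).card : ℝ) ≤ 1 := by exact_mod_cast h2
      exact le_trans h3 hB1n
    push Not at hJk
    by_contra hgt
    push Not at hgt
    apply hJ
    have hnk : n ≤ c := by omega
    -- the link family
    set 𝒯 := (minsAt 𝒞 k J).image (fun S => S \ J) with h𝒯
    have hinj : Set.InjOn (fun S : Finset X => S \ J) (minsAt 𝒞 k J : Set (Finset X)) := by
      intro S hS S' hS' h
      simp only [minsAt, Finset.coe_filter, Set.mem_ofPred_eq] at hS hS'
      simp only at h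
      rw [← Finset.sdiff_union_of_subset hS.2.2, ← Finset.sdiff_union_of_subset hS'.2.2, h]
    have hcardT : 𝒯.card = (minsAt 𝒞 k J).card := Finset.card_image_of_injOn hinj
    have hcard : ∀ T ∈ 𝒯, T.card = n := by
      intro T hT
      rw [h𝒯, Finset.mem_image] at hT
      obtain ⟨S, hS, rfl⟩ := hT
      simp only [minsAt, Finset.mem_filter] at hS
      rw [Finset.card_sdiff_of_subset hS.2.2, hS.2.1, hn]
    have hdeg : ∀ K : Finset X, K.Nonempty → ((𝒯.filter (fun T => K ⊆ T)).card : ℝ)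
        ≤ B ^ (n - K.card) := by
      intro K hK
      have hKc : 0 < K.card := Finset.card_pos.2 hK
      by_cases hKJ : Disjoint K J
      · have hsub : (𝒯.filter (fun T => K ⊆ T)) ⊆ (minsAt 𝒞 k (J ∪ K)).image (fun S => S \ J) := by
          intro T hT
          rw [Finset.mem_filter] at hT
          obtain ⟨hT1, hT2⟩ := hT
          rw [h𝒯, Finset.mem_image] at hT1
          obtain ⟨S, hS, rfl⟩ := hT1
          rw [Finset.mem_image]
          refine ⟨S, ?_, rfl⟩
          simp only [minsAt, Finset.mem_filter] at hS ⊢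
          refine ⟨hS.1, hS.2.1, Finset.union_subset hS.2.2 (hT2.trans Finset.sdiff_subset)⟩
        have h1 : (𝒯.filter (fun T => K ⊆ T)).card ≤ (minsAt 𝒞 k (J ∪ K)).card :=
          le_trans (Finset.card_le_card hsub) Finset.card_image_le
        have h2 : ((𝒯.filter (fun T => K ⊆ T)).card : ℝ) ≤ (minsAt 𝒞 k (J ∪ K)).card := by
          exact_mod_cast h1
        have hJKc : (J ∪ K).card = J.card + K.card := Finset.card_union_of_disjoint hKJ.symm
        by_cases hbig : k < (J ∪ K).card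
        · have : minsAt 𝒞 k (J ∪ K) = ∅ := by
            rw [Finset.eq_empty_iff_forall_notMem]
            intro S hS
            simp only [minsAt, Finset.mem_filter] at hS
            have := Finset.card_le_card hS.2.2
            omega
          rw [this] at h2
          simp only [Finset.card_empty, Nat.cast_zero] at h2
          exact le_trans h2 (by positivity)
        · push Not at hbig
          have h3 := ih (k - (J ∪ K).card) (by omega) (J ∪ K) rfl
          have h4 : k - (J ∪ K).card = n - K.card := by omega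
          rw [h4] at h3
          exact le_trans h2 h3
      · have : 𝒯.filter (fun T => K ⊆ T) = ∅ := by
          rw [Finset.eq_empty_iff_forall_notMem]
          intro T hT
          rw [Finset.mem_filter] at hT
          obtain ⟨hT1, hT2⟩ := hT
          rw [h𝒯, Finset.mem_image] at hT1
          obtain ⟨S, hS, rfl⟩ := hT1
          apply hKJ
          exact Finset.disjoint_of_subset_left hT2 Finset.sdiff_disjoint
        rw [this]
        simp only [Finset.card_empty, Nat.cast_zero]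
        positivity
    have hprob := (hcov n 𝒯 hnk hcard hdeg).1
    set P := N.E (fun z => ind (∃ T ∈ 𝒯, T ⊆ z)) with hP
    have hP1 : P ≤ 1 := N.le_one (fun z => ind_le_one _)
    rw [hcardT] at hprob
    have hhalf : 1 - P < 1 / 2 := hprob hgt
    apply hcl J (by omega)
    have h1 : ∀ W : Finset X, ind (¬ cov 𝒞 (J ∪ W)) ≤ ind (¬ ∃ T ∈ 𝒯, T ⊆ W) := by
      intro W
      apply ind_mono
      intro h ⟨T, hT, hTW⟩
      apply h
      rw [h𝒯, Finset.mem_image] at hT
      obtain ⟨S, hS, rfl⟩ := hT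
      simp only [minsAt, mins, Finset.mem_filter] at hS
      refine ⟨S, hS.1.1, ?_⟩
      rw [← Finset.union_sdiff_of_subset hS.2.2]
      exact Finset.union_subset_union_right hTW
    refine lt_of_le_of_lt (le_trans (N.iter_mono L h1) (N.iter_not_cover 𝒯 L)) ?_
    exact pow_lt_pow_left₀ hhalf (by linarith) hL.ne'

variable {Ω : Type*} [Fintype Ω]

theorem Ev_mins_le {L c : ℕ} {B : ℝ} (hL : 0 < L) (hB1 : 1 ≤ B) (hcov : Covers N c B)
    {𝒞 : Finset (Finset X)}
    (hcl : Closed N L c 𝒞) (v : Ω → Finset X) {κ : ℝ} (hκ : 0 ≤ κ)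
    (hsp : Spread v c κ) (hBκ : B * κ ≤ 1 / 4) (e : ℕ) :
    Ev v (fun Z => ind (∃ S ∈ mins 𝒞, e < S.card ∧ S.card ≤ c ∧ S ⊆ Z)) ≤ (1 / 4 : ℝ) ^ e := by
  have h1 : ∀ Z : Finset X, ind (∃ S ∈ mins 𝒞, e < S.card ∧ S.card ≤ c ∧ S ⊆ Z)
      ≤ ∑ k ∈ Finset.Ioc e c, ∑ S ∈ minsAt 𝒞 k ∅, ind (S ⊆ Z) := by
    intro Z
    by_cases h : ∃ S ∈ mins 𝒞, e < S.card ∧ S.card ≤ c ∧ S ⊆ Z
    · rw [ind_of h]
      obtain ⟨S, hS, he, hc', hSZ⟩ := h
      have h2 : (1 : ℝ) ≤ ∑ S ∈ minsAt 𝒞 S.card ∅, ind (S ⊆ Z) := by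
        rw [← ind_of hSZ]
        apply Finset.single_le_sum (f := fun S => ind (S ⊆ Z)) (fun b _ => ind_nonneg _)
        rw [minsAt, Finset.mem_filter]
        exact ⟨hS, rfl, Finset.empty_subset _⟩
      refine le_trans h2 ?_
      exact Finset.single_le_sum (f := fun k => ∑ S ∈ minsAt 𝒞 k ∅, ind (S ⊆ Z))
        (fun k _ => Finset.sum_nonneg (fun b _ => ind_nonneg _)) (Finset.mem_Ioc.2 ⟨he, hc'⟩)
    · rw [ind_not h]
      exact Finset.sum_nonneg (fun k _ => Finset.sum_nonneg (fun b _ => ind_nonneg _))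
  refine le_trans (Ev_mono v h1) ?_
  rw [Ev_sum]
  have h2 : ∀ k ∈ Finset.Ioc e c, Ev v (fun Z => ∑ S ∈ minsAt 𝒞 k ∅, ind (S ⊆ Z))
      ≤ (1 / 4 : ℝ) ^ k := by
    intro k hk
    rw [Finset.mem_Ioc] at hk
    rw [Ev_sum]
    have h3 : ∀ S ∈ minsAt 𝒞 k ∅, Ev v (fun Z => ind (S ⊆ Z)) ≤ κ ^ k := by
      intro S hS
      simp only [minsAt, Finset.mem_filter] at hS
      have := hsp S (by omega)
      rw [hS.2.1] at this
      exact this
    refine le_trans (Finset.sum_le_sum h3) ?_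
    rw [Finset.sum_const, nsmul_eq_mul]
    have h4 := card_minsAt_le hL hB1 hcov hcl hk.2 ∅
    rw [Finset.card_empty, Nat.sub_zero] at h4
    calc ((minsAt 𝒞 k ∅).card : ℝ) * κ ^ k ≤ B ^ k * κ ^ k :=
          mul_le_mul_of_nonneg_right h4 (by positivity)
      _ = (B * κ) ^ k := by rw [← mul_pow]
      _ ≤ (1 / 4) ^ k := pow_le_pow_left₀ (by positivity) hBκ k
  refine le_trans (Finset.sum_le_sum h2) ?_
  refine le_trans (geom_Ioc e c) ?_
  have : (0 : ℝ) ≤ (1 / 4) ^ e := by positivity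
  linarith

/-- A spread positive test is dominated, on closed families, by one noise set. -/
theorem Ev_cov_le {L c : ℕ} {B : ℝ} (hL : 0 < L) (hB1 : 1 ≤ B) (hcov : Covers N c B)
    {𝒞 : Finset (Finset X)}
    (hcl : Closed N L c 𝒞) (hsm : 𝒞 ⊆ smalls c) (v : Ω → Finset X) {κ : ℝ} (hκ : 0 ≤ κ)
    (hsp : Spread v c κ) (hBκ : B * κ ≤ 1 / 4) :
    Ev v (fun Z => ind (cov 𝒞 Z)) ≤ 3 * N.E (fun z => ind (cov 𝒞 z)) := by
  set P := N.E (fun z => ind (cov 𝒞 z)) with hP
  have hP0 : 0 ≤ P := N.nonneg (fun z => ind_nonneg _)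
  by_cases hPh : 1 / 2 ≤ P
  · have := Ev_le_one v (F := fun Z => ind (cov 𝒞 Z)) (fun z => ind_le_one _)
    linarith
  push Not at hPh
  have hempty : ∅ ∉ 𝒞 := by
    intro h
    have : P = 1 := by
      rw [hP]
      have h1 : (fun z : Finset X => ind (cov 𝒞 z)) = fun _ => 1 := by
        funext z
        exact ind_of ⟨∅, h, Finset.empty_subset _⟩
      rw [h1, N.const']
    rw [this] at hPh
    norm_num at hPh
  have h1 : ∀ Z : Finset X, ind (cov 𝒞 Z)
      ≤ ∑ k ∈ Finset.Ioc 0 c, ∑ S ∈ minsAt 𝒞 k ∅, ind (S ⊆ Z) := by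
    intro Z
    by_cases h : cov 𝒞 Z
    · rw [ind_of h]
      obtain ⟨S, hS, hSZ⟩ := cov_mins.2 h
      have hSc : S.card ≤ c := mem_smalls.1 (hsm (Finset.mem_filter.1 hS).1)
      have hS0 : 0 < S.card := by
        rw [Finset.card_pos, Finset.nonempty_iff_ne_empty]
        rintro rfl
        exact hempty (Finset.mem_filter.1 hS).1
      have h2 : (1 : ℝ) ≤ ∑ S ∈ minsAt 𝒞 S.card ∅, ind (S ⊆ Z) := by
        rw [← ind_of hSZ]
        apply Finset.single_le_sum (f := fun S => ind (S ⊆ Z)) (fun b _ => ind_nonneg _)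
        rw [minsAt, Finset.mem_filter]
        exact ⟨hS, rfl, Finset.empty_subset _⟩
      refine le_trans h2 ?_
      exact Finset.single_le_sum (f := fun k => ∑ S ∈ minsAt 𝒞 k ∅, ind (S ⊆ Z))
        (fun k _ => Finset.sum_nonneg (fun b _ => ind_nonneg _)) (Finset.mem_Ioc.2 ⟨hS0, hSc⟩)
    · rw [ind_not h]
      exact Finset.sum_nonneg (fun k _ => Finset.sum_nonneg (fun b _ => ind_nonneg _))
  refine le_trans (Ev_mono v h1) ?_
  rw [Ev_sum]
  have h2 : ∀ k ∈ Finset.Ioc 0 c, Ev v (fun Z => ∑ S ∈ minsAt 𝒞 k ∅, ind (S ⊆ Z))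
      ≤ 8 * P * (1 / 4 : ℝ) ^ k := by
    intro k hk
    rw [Finset.mem_Ioc] at hk
    rw [Ev_sum]
    have h3 : ∀ S ∈ minsAt 𝒞 k ∅, Ev v (fun Z => ind (S ⊆ Z)) ≤ κ ^ k := by
      intro S hS
      simp only [minsAt, Finset.mem_filter] at hS
      have := hsp S (by omega)
      rw [hS.2.1] at this
      exact this
    refine le_trans (Finset.sum_le_sum h3) ?_
    rw [Finset.sum_const, nsmul_eq_mul]
    -- the number of minimal members of size k
    have hcard : ∀ T ∈ minsAt 𝒞 k ∅, T.card = k := by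
      intro T hT
      simp only [minsAt, Finset.mem_filter] at hT
      exact hT.2.1
    have hdeg : ∀ K : Finset X, K.Nonempty → (((minsAt 𝒞 k ∅).filter (fun T => K ⊆ T)).card : ℝ)
        ≤ B ^ (k - K.card) := by
      intro K _
      have h4 : (minsAt 𝒞 k ∅).filter (fun T => K ⊆ T) ⊆ minsAt 𝒞 k K := by
        intro T hT
        simp only [minsAt, Finset.mem_filter] at hT ⊢
        exact ⟨hT.1.1, hT.1.2.1, hT.2⟩
      have h5 : (((minsAt 𝒞 k ∅).filter (fun T => K ⊆ T)).card : ℝ) ≤ (minsAt 𝒞 k K).card := by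
        exact_mod_cast Finset.card_le_card h4
      exact le_trans h5 (card_minsAt_le hL hB1 hcov hcl hk.2 K)
    have hprob := (hcov k (minsAt 𝒞 k ∅) hk.2 hcard hdeg).2
    set Pk := N.E (fun z => ind (∃ T ∈ minsAt 𝒞 k ∅, T ⊆ z)) with hPk
    have hPkP : Pk ≤ P := by
      apply N.mono
      intro z
      apply ind_mono
      rintro ⟨T, hT, hTz⟩
      simp only [minsAt, mins, Finset.mem_filter] at hT
      exact ⟨T, hT.1.1, hTz⟩
    have hB0 : (0 : ℝ) ≤ B ^ k := by positivity
    have hm0 : (0 : ℝ) ≤ ((minsAt 𝒞 k ∅).card : ℝ) := by positivity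
    have h6 : ((minsAt 𝒞 k ∅).card : ℝ) ≤ 8 * P * B ^ k := by
      have ha : ((minsAt 𝒞 k ∅).card : ℝ) * (1 / 2) ≤ ((minsAt 𝒞 k ∅).card : ℝ) * (1 - Pk) :=
        mul_le_mul_of_nonneg_left (by linarith) hm0
      have hb : Pk * B ^ k ≤ P * B ^ k :=
        mul_le_mul_of_nonneg_right hPkP hB0
      linarith
    calc ((minsAt 𝒞 k ∅).card : ℝ) * κ ^ k ≤ (8 * P * B ^ k) * κ ^ k :=
          mul_le_mul_of_nonneg_right h6 (by positivity)
      _ = 8 * P * (B * κ) ^ k := by rw [mul_assoc, ← mul_pow]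
      _ ≤ 8 * P * (1 / 4) ^ k := by
          apply mul_le_mul_of_nonneg_left _ (by linarith)
          exact pow_le_pow_left₀ (by positivity) hBκ k
  refine le_trans (Finset.sum_le_sum h2) ?_
  rw [← Finset.mul_sum]
  have h3 := geom_Ioc 0 c
  rw [pow_zero, mul_one] at h3
  nlinarith

end Pool.Agent.T9h34.G
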