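import Mathlib

/-!
Counting functions all of whose fibres are even.
-/

namespace Pool.Agent.T9h34.G

open Finset

/-- Functions all of whose fibres are even. -/
def evens (m n : ℕ) : Finset (Fin n → Fin m) :=
  univ.filter (fun f => ∑ x, (Pi.single (f x) (1 : ZMod 2) : Fin m → ZMod 2) = 0)

theorem evens_step (m n : ℕ) : (evens m (n + 2)).card ≤ (n + 1) * m * (evens m n).card := by
  classical
  have hsub : evens m (n + 2) ⊆ ((univ : Finset (Fin (n + 1))) ×ˢ ((univ : Finset (Fin m)) ×ˢ
      evens m n)).image (fun p => Fin.cons p.2.1 (Fin.insertNth p.1 p.2.1 p.2.2)) := by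
    intro f hf
    unfold evens at hf
    rw [Finset.mem_filter] at hf
    have hf0 := hf.2
    rw [Fin.sum_univ_succ] at hf0
    have hex : ∃ x : Fin (n + 1), f x.succ = f 0 := by
      by_contra hcon
      push Not at hcon
      have h1 := congrFun hf0 (f 0)
      rw [Pi.add_apply, Pi.single_eq_same, Finset.sum_apply, Pi.zero_apply] at h1
      rw [Finset.sum_eq_zero] at h1
      · rw [add_zero] at h1
        exact one_ne_zero h1
      · intro x _
        rw [Pi.single_eq_of_ne (hcon x).symm]
    obtain ⟨x1, hx1⟩ := hex
    rw [Finset.mem_image]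
    refine ⟨(x1, f 0, fun x => f (x1.succAbove x).succ), ?_, ?_⟩
    · rw [Finset.mem_product, Finset.mem_product]
      refine ⟨Finset.mem_univ _, Finset.mem_univ _, ?_⟩
      unfold evens
      rw [Finset.mem_filter]
      refine ⟨Finset.mem_univ _, ?_⟩
      rw [Fin.sum_univ_succAbove _ x1, hx1, ← add_assoc] at hf0
      have h2 : (Pi.single (f 0) (1 : ZMod 2) : Fin m → ZMod 2) + Pi.single (f 0) 1 = 0 := by
        rw [← Pi.single_add]
        have : (1 : ZMod 2) + 1 = 0 := by decide
        rw [this, Pi.single_zero]
      rw [h2, zero_add] at hf0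
      exact hf0
    · funext y
      refine Fin.cases ?_ (fun y => ?_) y
      · rfl
      · simp only [Fin.cons_succ]
        refine Fin.succAboveCases x1 ?_ (fun z => ?_) y
        · rw [Fin.insertNth_apply_same, hx1]
        · rw [Fin.insertNth_apply_succAbove]
  refine (Finset.card_le_card hsub).trans (Finset.card_image_le.trans ?_)
  rw [Finset.card_product, Finset.card_product, Finset.card_univ, Finset.card_univ,
    Fintype.card_fin, Fintype.card_fin, mul_assoc]

theorem evens_bound (m : ℕ) : ∀ n : ℕ, (evens m n).card ^ 2 ≤ (n * m) ^ n ∧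
    (evens m (n + 1)).card ^ 2 ≤ ((n + 1) * m) ^ (n + 1) := by
  intro n
  induction n with
  | zero =>
    constructor
    · simp only [zero_mul, pow_zero]
      have : (evens m 0).card ≤ 1 := by
        refine (Finset.card_le_univ _).trans ?_
        simp
      have h2 := Nat.pow_le_pow_left this 2
      simpa using h2
    · have : (evens m 1).card = 0 := by
        rw [Finset.card_eq_zero, Finset.eq_empty_iff_forall_notMem]
        intro f hf
        unfold evens at hf
        rw [Finset.mem_filter] at hf
        have h1 := congrFun hf.2 (f 0)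
        simp at h1
      rw [this]
      positivity
  | succ n ih =>
    refine ⟨ih.2, ?_⟩
    have h1 := Nat.pow_le_pow_left (evens_step m n) 2
    refine h1.trans ?_
    calc ((n + 1) * m * (evens m n).card) ^ 2
        = ((n + 1) * m) ^ 2 * (evens m n).card ^ 2 := by ring
      _ ≤ ((n + 1) * m) ^ 2 * (n * m) ^ n := Nat.mul_le_mul_left _ ih.1
      _ ≤ ((n + 1 + 1) * m) ^ 2 * ((n + 1 + 1) * m) ^ n := by
          apply Nat.mul_le_mul
          · apply Nat.pow_le_pow_left
            apply Nat.mul_le_mul_right
            omega
          · apply Nat.pow_le_pow_left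
            apply Nat.mul_le_mul_right
            omega
      _ = ((n + 1 + 1) * m) ^ (n + 1 + 1) := by rw [← pow_add]; congr 1; omega

end Pool.Agent.T9h34.G
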