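import Pool.Agent.T9h34.G.EvenCount

/-!
Sparse systems of linear forms over `ZMod 2` all of whose small subsystems are independent.
-/

namespace Pool.Agent.T9h34.G

open Finset

/-- The linear form `∑ l, s (S q l)` as a vector of coefficients. -/
def rowVec {R : Type} {k m : ℕ} (S : R → Fin k → Fin m) (q : R) : Fin m → ZMod 2 :=
  ∑ l, Pi.single (S q l) 1

variable {R : Type} [Fintype R] [DecidableEq R] {k m : ℕ}

theorem bad_card (pm : ℕ) (hm : 4 * pm * k ≤ m) (Q : Finset R) (hQ : Q.card ≤ pm) :
    ((univ : Finset (R → Fin k → Fin m)).filter (fun S => ∑ q ∈ Q, rowVec S q = 0)).card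
      * 2 ^ (k * Q.card) ≤ (m ^ k) ^ Fintype.card R := by
  classical
  set N := Q.card * k with hN
  set bad := (univ : Finset (R → Fin k → Fin m)).filter (fun S => ∑ q ∈ Q, rowVec S q = 0)
    with hbad
  have hcardE : Fintype.card (Fin N) = Fintype.card (Q × Fin k) := by
    rw [Fintype.card_fin, Fintype.card_prod, Fintype.card_fin, Fintype.card_coe]
  obtain ⟨e⟩ := Fintype.card_eq.1 hcardE
  have h1 : bad.card ≤ (evens m N ×ˢ (univ : Finset ({q // q ∉ Q} → Fin k → Fin m))).card := by
    apply Finset.card_le_card_of_injOn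
      (fun S => ((fun x => S (e x).1.1 (e x).2), fun q => S q.1))
    · intro S hS
      rw [Finset.mem_coe, hbad, Finset.mem_filter] at hS
      rw [Finset.mem_coe, Finset.mem_product]
      refine ⟨?_, Finset.mem_univ _⟩
      unfold evens
      rw [Finset.mem_filter]
      refine ⟨Finset.mem_univ _, ?_⟩
      have h2 : ∑ x : Fin N, (Pi.single (S (e x).1.1 (e x).2) (1 : ZMod 2) : Fin m → ZMod 2)
          = ∑ p : Q × Fin k, Pi.single (S p.1.1 p.2) 1 :=
        Equiv.sum_comp e (fun p : Q × Fin k =>
          (Pi.single (S p.1.1 p.2) (1 : ZMod 2) : Fin m → ZMod 2))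
      simp only
      rw [h2, Fintype.sum_prod_type]
      have h3 := hS.2
      unfold rowVec at h3
      rw [← Finset.sum_coe_sort Q (fun q => ∑ l, (Pi.single (S q l) (1 : ZMod 2) :
        Fin m → ZMod 2))] at h3
      exact h3
    · intro S _ S' _ h
      simp only [Prod.mk.injEq] at h
      funext q
      by_cases hq : q ∈ Q
      · funext l
        have h2 := congrFun h.1 (e.symm (⟨q, hq⟩, l))
        simpa using h2
      · exact congrFun h.2 ⟨q, hq⟩
  rw [Finset.card_product, Finset.card_univ, Fintype.card_fun, Fintype.card_fun, Fintype.card_fin,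
    Fintype.card_fin, Fintype.card_subtype_compl (fun q => q ∈ Q), Fintype.card_coe] at h1
  have hQR : Q.card ≤ Fintype.card R := Finset.card_le_univ Q
  have h4N : 4 * N ≤ m := by
    refine le_trans ?_ hm
    rw [hN, ← mul_assoc]
    exact Nat.mul_le_mul_right _ (Nat.mul_le_mul_left _ hQ)
  have h2 : (bad.card * 2 ^ (k * Q.card)) ^ 2 ≤ ((m ^ k) ^ Fintype.card R) ^ 2 := by
    calc (bad.card * 2 ^ (k * Q.card)) ^ 2
        ≤ ((evens m N).card * (m ^ k) ^ (Fintype.card R - Q.card) * 2 ^ (k * Q.card)) ^ 2 :=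
          Nat.pow_le_pow_left (Nat.mul_le_mul_right _ h1) 2
      _ = (evens m N).card ^ 2 * (2 ^ 2) ^ (k * Q.card)
            * ((m ^ k) ^ (Fintype.card R - Q.card)) ^ 2 := by
          rw [mul_pow, mul_pow, ← pow_mul 2 (k * Q.card) 2, mul_comm (k * Q.card) 2, pow_mul 2 2]
          ring
      _ ≤ (N * m) ^ N * (2 ^ 2) ^ (k * Q.card) * ((m ^ k) ^ (Fintype.card R - Q.card)) ^ 2 := by
          apply Nat.mul_le_mul_right
          apply Nat.mul_le_mul_right
          exact (evens_bound m N).1
      _ = (4 * N * m) ^ N * ((m ^ k) ^ (Fintype.card R - Q.card)) ^ 2 := by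
          congr 1
          have : k * Q.card = N := by rw [hN, mul_comm]
          rw [this, ← mul_pow]
          congr 1
          ring
      _ ≤ (m * m) ^ N * ((m ^ k) ^ (Fintype.card R - Q.card)) ^ 2 := by
          apply Nat.mul_le_mul_right
          apply Nat.pow_le_pow_left
          exact Nat.mul_le_mul_right _ h4N
      _ = ((m ^ k) ^ Fintype.card R) ^ 2 := by
          have h5 : (m * m) ^ N = ((m ^ k) ^ Q.card) ^ 2 := by
            rw [hN, mul_comm Q.card k, pow_mul, mul_pow, mul_pow, sq]
          rw [h5, ← mul_pow, ← pow_add]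
          congr 3
          omega
  exact (Nat.pow_le_pow_iff_left (by norm_num)).1 h2

theorem exists_sparse (pm : ℕ) (hm0 : 0 < m) (hk : 4 * Fintype.card R ≤ 2 ^ k)
    (hm : 4 * pm * k ≤ m) :
    ∃ S : R → Fin k → Fin m, ∀ Q : Finset R, Q.Nonempty → Q.card ≤ pm →
      ∑ q ∈ Q, rowVec S q ≠ 0 := by
  classical
  by_contra hcon
  push Not at hcon
  set tot := (m ^ k) ^ Fintype.card R with htot
  have htot0 : 0 < tot := by positivity
  have htotc : (univ : Finset (R → Fin k → Fin m)).card = tot := by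
    rw [Finset.card_univ, Fintype.card_fun, Fintype.card_fun, Fintype.card_fin, Fintype.card_fin]
  set 𝒬 := (univ : Finset (Finset R)).filter (fun Q => Q.Nonempty ∧ Q.card ≤ pm) with h𝒬
  have hsub : (univ : Finset (R → Fin k → Fin m)) ⊆
      𝒬.biUnion (fun Q => univ.filter (fun S => ∑ q ∈ Q, rowVec S q = 0)) := by
    intro S _
    obtain ⟨Q, h1, h2, h3⟩ := hcon S
    rw [Finset.mem_biUnion]
    refine ⟨Q, ?_, ?_⟩
    · rw [h𝒬, Finset.mem_filter]
      exact ⟨Finset.mem_univ _, h1, h2⟩
    · rw [Finset.mem_filter]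
      exact ⟨Finset.mem_univ _, h3⟩
  have h1 := (Finset.card_le_card hsub).trans Finset.card_biUnion_le
  rw [htotc] at h1
  set y : ℝ := 1 / 2 ^ k with hy
  have hy0 : 0 < y := by positivity
  have h2 : ∀ Q ∈ 𝒬, (((univ : Finset (R → Fin k → Fin m)).filter
      (fun S => ∑ q ∈ Q, rowVec S q = 0)).card : ℝ) ≤ tot * y ^ Q.card := by
    intro Q hQ
    rw [h𝒬, Finset.mem_filter] at hQ
    have h3 := bad_card pm hm Q hQ.2.2
    have h4 : ((((univ : Finset (R → Fin k → Fin m)).filter
      (fun S => ∑ q ∈ Q, rowVec S q = 0)).card * 2 ^ (k * Q.card) : ℕ) : ℝ) ≤ (tot : ℝ) := by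
      exact_mod_cast h3
    push_cast at h4
    rw [hy, one_div, inv_pow, ← div_eq_mul_inv, ← pow_mul, le_div_iff₀ (by positivity)]
    exact h4
  have h3 : (tot : ℝ) ≤ ∑ Q ∈ 𝒬, (tot : ℝ) * y ^ Q.card := by
    refine le_trans ?_ (Finset.sum_le_sum h2)
    exact_mod_cast h1
  have h4 : ∑ Q ∈ 𝒬, (tot : ℝ) * y ^ Q.card ≤ tot * ((1 + y) ^ Fintype.card R - 1) := by
    rw [← Finset.mul_sum]
    apply mul_le_mul_of_nonneg_left _ (by positivity)
    have h5 : ∑ Q ∈ (univ : Finset R).powerset, y ^ Q.card * 1 ^ ((univ : Finset R).card - Q.card)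
        = (y + 1) ^ (univ : Finset R).card := Finset.sum_pow_mul_eq_add_pow y 1 univ
    simp only [one_pow, mul_one, Finset.powerset_univ, Finset.card_univ] at h5
    have h6 : insert ∅ 𝒬 ⊆ (univ : Finset (Finset R)) := Finset.subset_univ _
    have h7 := Finset.sum_le_sum_of_subset_of_nonneg (f := fun Q : Finset R => y ^ Q.card) h6
      (fun Q _ _ => by positivity)
    rw [h5, Finset.sum_insert (by
      rw [h𝒬, Finset.mem_filter]
      rintro ⟨_, h8, _⟩
      exact Finset.not_nonempty_empty h8), Finset.card_empty, pow_zero] at h7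
    rw [add_comm y 1] at h7
    linarith
  -- (1 + y) ^ R ≤ 4 / 3
  have hRy : (Fintype.card R : ℝ) * y ≤ 1 / 4 := by
    rw [hy, mul_one_div, div_le_iff₀ (by positivity)]
    have : ((4 * Fintype.card R : ℕ) : ℝ) ≤ ((2 ^ k : ℕ) : ℝ) := by exact_mod_cast hk
    push_cast at this
    linarith
  have hy1 : y ≤ 1 := by
    rw [hy, div_le_one (by positivity)]
    exact one_le_pow₀ (by norm_num)
  have hbern : 1 + (Fintype.card R : ℝ) * (-y) ≤ (1 + (-y)) ^ Fintype.card R :=
    one_add_mul_le_pow (by linarith) _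
  have h8 : (1 + y) ^ Fintype.card R * (1 + (-y)) ^ Fintype.card R ≤ 1 := by
    rw [← mul_pow]
    apply pow_le_one₀
    · nlinarith
    · nlinarith
  have h9 : (1 + y) ^ Fintype.card R * (3 / 4) ≤ 1 := by
    refine le_trans (mul_le_mul_of_nonneg_left ?_ (by positivity)) h8
    linarith
  have htotR : (0 : ℝ) < tot := by exact_mod_cast htot0
  have h10 : (tot : ℝ) * ((1 + y) ^ Fintype.card R - 1) ≤ tot * (1 / 3) :=
    mul_le_mul_of_nonneg_left (by linarith) htotR.le
  linarith

/-- Independent linear forms take all values. -/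
theorem surj_of_indep {ι : Type} [Fintype ι] [DecidableEq ι] (v : ι → Fin m → ZMod 2)
    (hv : ∀ Q : Finset ι, Q.Nonempty → ∑ q ∈ Q, v q ≠ 0) (y : ι → ZMod 2) :
    ∃ s : Fin m → ZMod 2, ∀ q, ∑ j, v q j * s j = y q := by
  classical
  set Φ : (Fin m → ZMod 2) →ₗ[ZMod 2] (ι → ZMod 2) :=
    { toFun := fun s q => ∑ j, v q j * s j
      map_add' := by
        intro s s'
        funext q
        simp [mul_add, Finset.sum_add_distrib]
      map_smul' := by
        intro r s
        funext q
        simp [Finset.mul_sum, mul_left_comm] } with hΦ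
  have hinj : Function.Injective Φ.dualMap := by
    rw [injective_iff_map_eq_zero]
    intro g hg
    set Q := (univ : Finset ι).filter (fun q => g (Pi.single q 1) ≠ 0) with hQ
    have hg1 : ∀ q, g (Pi.single q 1) = if q ∈ Q then 1 else 0 := by
      intro q
      by_cases h : g (Pi.single q 1) = 0
      · rw [if_neg]
        · exact h
        · rw [hQ, Finset.mem_filter]
          exact fun h' => h'.2 h
      · rw [if_pos]
        · generalize g (Pi.single q 1) = x at h
          revert x
          decide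
        · rw [hQ, Finset.mem_filter]
          exact ⟨Finset.mem_univ _, h⟩
    have hgexp : ∀ w : ι → ZMod 2, g w = ∑ q ∈ Q, w q := by
      intro w
      have h1 : w = ∑ q, w q • (Pi.single q 1 : ι → ZMod 2) := by
        funext q
        rw [Finset.sum_apply]
        simp [Pi.single_apply]
      conv_lhs => rw [h1]
      rw [map_sum]
      simp only [map_smul, hg1, smul_eq_mul, mul_ite, mul_one, mul_zero]
      rw [← Finset.sum_filter]
      congr 1
      ext q
      simp
    have hQe : ¬ Q.Nonempty := by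
      intro hne
      apply hv Q hne
      funext j
      have h1 := LinearMap.congr_fun hg (Pi.single j 1)
      rw [LinearMap.dualMap_apply, hgexp] at h1
      simp only [LinearMap.zero_apply] at h1
      rw [Finset.sum_apply, Pi.zero_apply, ← h1]
      apply Finset.sum_congr rfl
      intro q _
      simp [hΦ, Pi.single_apply]
    rw [Finset.not_nonempty_iff_eq_empty] at hQe
    apply LinearMap.ext
    intro w
    rw [hgexp, hQe]
    simp
  have hsurj := LinearMap.dualMap_injective_iff.1 hinj
  obtain ⟨s, hs⟩ := hsurj y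
  exact ⟨s, fun q => congrFun hs q⟩

end Pool.Agent.T9h34.G
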