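import Pool.Agent.T9h34.Gadget
import Pool.Agent.T9h34.G.Sparse

/-!
Membership of a full codeword of a sparse code in a set is a projection of the clique problem.
-/

namespace Pool.Agent.T9h34.G

open Finset

variable {a b k m u : ℕ}

/-- The rows of the code: bits of symbols. -/
abbrev Row (a b : ℕ) : Type := Fin a × (Bool × Fin b)

/-- The code given by sparse linear forms. -/
def sparseCode (S : Row a b → Fin k → Fin m) :
    (Fin m → ZMod 2) →ₗ[ZMod 2] (Fin a → Sym b) where
  toFun s i p := ∑ l, s (S (i, p) l)
  map_add' := by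
    intro s s'
    funext i p
    simp [Finset.sum_add_distrib]
  map_smul' := by
    intro r s
    funext i p
    simp [Finset.mul_sum]

theorem sparseCode_apply (S : Row a b → Fin k → Fin m) (s : Fin m → ZMod 2) (i : Fin a)
    (p : Bool × Fin b) : sparseCode S s i p = ∑ l, s (S (i, p) l) := rfl

theorem sparseCode_indep {c : ℕ} (S : Row a b → Fin k → Fin m)
    (hS : ∀ Q : Finset (Row a b), Q.Nonempty → Q.card ≤ c * (2 * b) →
      ∑ q ∈ Q, rowVec S q ≠ 0) :
    ∀ T : Finset (Fin a), T.card ≤ c → ∀ y : Fin a → Sym b, ∃ s, ∀ i ∈ T,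
      sparseCode S s i = y i := by
  classical
  intro T hT y
  obtain ⟨s, hs⟩ := surj_of_indep (ι := {q : Row a b // q.1 ∈ T}) (fun q => rowVec S q.1) (by
    intro Q hQ
    have h1 : (Q.map (Function.Embedding.subtype _)).card ≤ c * (2 * b) := by
      have hsub : Q.map (Function.Embedding.subtype _) ⊆
          T ×ˢ (univ : Finset (Bool × Fin b)) := by
        intro q hq
        rw [Finset.mem_map] at hq
        obtain ⟨q', _, rfl⟩ := hq
        rw [Finset.mem_product]
        exact ⟨q'.2, Finset.mem_univ _⟩
      refine (Finset.card_le_card hsub).trans ?_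
      rw [Finset.card_product, Finset.card_univ, Fintype.card_prod, Fintype.card_bool,
        Fintype.card_fin]
      exact Nat.mul_le_mul_right _ hT
    have h2 := hS (Q.map (Function.Embedding.subtype _)) (Finset.map_nonempty.2 hQ) h1
    rw [Finset.sum_map] at h2
    exact h2) (fun q => y q.1.1 q.1.2)
  refine ⟨s, ?_⟩
  intro i hi
  funext p
  have h1 := hs ⟨(i, p), hi⟩
  simp only at h1
  rw [← h1, sparseCode_apply]
  unfold rowVec
  simp only [Finset.sum_apply, Finset.sum_mul]
  rw [Finset.sum_comm]
  apply Finset.sum_congr rfl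
  intro l _
  simp [Pi.single_apply]

/-- Partial sums. -/
def psum (S : Row a b → Fin k → Fin m) (q : Row a b) (l : ℕ) (s : Fin m → ZMod 2) : ZMod 2 :=
  ∑ j : Fin k, if (j : ℕ) < l then s (S q j) else 0

theorem psum_zero (S : Row a b → Fin k → Fin m) (q : Row a b) (s : Fin m → ZMod 2) :
    psum S q 0 s = 0 := by
  simp [psum]

theorem psum_full (S : Row a b → Fin k → Fin m) (q : Row a b) (s : Fin m → ZMod 2) :
    psum S q k s = sparseCode S s q.1 q.2 := by
  rw [sparseCode_apply]
  simp [psum]

theorem psum_succ (S : Row a b → Fin k → Fin m) (q : Row a b) (l : Fin k)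
    (s : Fin m → ZMod 2) : psum S q ((l : ℕ) + 1) s = psum S q (l : ℕ) s + s (S q l) := by
  classical
  unfold psum
  have h1 : ∀ j : Fin k, (if (j : ℕ) < (l : ℕ) + 1 then s (S q j) else 0)
      = (if (j : ℕ) < (l : ℕ) then s (S q j) else 0) + (if j = l then s (S q j) else 0) := by
    intro j
    rcases lt_trichotomy (j : ℕ) (l : ℕ) with h | h | h
    · have hne : j ≠ l := fun e => by rw [e] at h; exact lt_irrefl _ h
      rw [if_pos (by omega), if_pos h, if_neg hne, add_zero]
    · have he : j = l := Fin.ext h
      rw [if_pos (by omega), if_neg (by omega), if_pos he, zero_add]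
    · have hne : j ≠ l := fun e => by rw [e] at h; exact lt_irrefl _ h
      rw [if_neg (by omega), if_neg (by omega), if_neg hne, add_zero]
  simp only [h1, Finset.sum_add_distrib, Finset.sum_ite_eq', Finset.mem_univ, if_true]

variable (S : Row a b → Fin k → Fin m)

/-- The vertex that a message selects in a group. -/
def vert (s : Fin m → ZMod 2) : Grp a b k u → Vtx a b k u
  | .inl p => .inl (p, fun j => sparseCode S s p.1 (p.2, j))
  | .inr (.inl p) => .inr (.inl (p, (psum S (p.1, (p.2.1, p.2.2.1)) (p.2.2.2 : ℕ) s,
      s (S (p.1, (p.2.1, p.2.2.1)) p.2.2.2))))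
  | .inr (.inr i) => .inr (.inr i)

theorem grp_vert (s : Fin m → ZMod 2) (g : Grp a b k u) : grp (vert S s g) = g := by
  rcases g with g | g | g <;> rfl

/-- Two vertices of different groups that some message selects together. -/
def Base (x y : Vtx a b k u) : Prop :=
  grp x ≠ grp y ∧ ∃ s, vert S s (grp x) = x ∧ vert S s (grp y) = y

theorem Base.symm {x y : Vtx a b k u} (h : Base S x y) : Base S y x :=
  ⟨fun e => h.1 e.symm, by obtain ⟨s, h1, h2⟩ := h.2; exact ⟨s, h2, h1⟩⟩

/-- The status of a pair of vertices. -/
noncomputable def edge (x y : Vtx a b k u) : Ground a b ⊕ Bool := by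
  classical
  exact if Base S x y then label x y else .inr false

theorem edge_symm (x y : Vtx a b k u) : edge S x y = edge S y x := by
  unfold edge
  by_cases h : Base S x y
  · rw [if_pos h, if_pos h.symm, label_symm h.1]
  · rw [if_neg h, if_neg (fun h' => h h'.symm)]

/-- The graph of an input set. -/
def graphOf (Z : Finset (Ground a b)) : SimpleGraph (Vtx a b k u) where
  Adj x y := Sum.elim (fun p => p ∈ Z) (fun c => c = true) (edge S x y)
  symm := ⟨by
    intro x y h
    rw [edge_symm]
    exact h⟩
  loopless := ⟨by
    intro x h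
    unfold edge at h
    rw [if_neg (fun h' => h'.1 rfl)] at h
    exact absurd h (by simp)⟩

theorem graphOf_adj (Z : Finset (Ground a b)) (x y : Vtx a b k u) :
    (graphOf S Z).Adj x y ↔ Sum.elim (fun p => p ∈ Z) (fun c => c = true) (edge S x y) := Iff.rfl

theorem base_of_adj {Z : Finset (Ground a b)} {x y : Vtx a b k u}
    (h : (graphOf S Z).Adj x y) : Base S x y := by
  by_contra hb
  rw [graphOf_adj] at h
  unfold edge at h
  rw [if_neg hb] at h
  simp at h

theorem clique_iff (hk : 0 < k) (Z : Finset (Ground a b)) :
    (∃ T : Finset (Vtx a b k u), (graphOf S Z).IsNClique (Fintype.card (Grp a b k u)) T)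
      ↔ ∃ s, wordSet (sparseCode S) s ⊆ Z := by
  classical
  constructor
  · rintro ⟨T, hT⟩
    rw [SimpleGraph.isNClique_iff] at hT
    obtain ⟨hcl, hcard⟩ := hT
    have hinj : Set.InjOn grp (T : Set (Vtx a b k u)) := by
      intro x hx y hy hxy
      by_contra hne
      exact (base_of_adj S (hcl hx hy hne)).1 hxy
    have himg : T.image grp = univ := by
      rw [← Finset.card_eq_iff_eq_univ, Finset.card_image_of_injOn hinj, hcard]
    have hex : ∀ g : Grp a b k u, ∃ x ∈ T, grp x = g := by
      intro g
      have : g ∈ T.image grp := by rw [himg]; exact Finset.mem_univ g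
      rw [Finset.mem_image] at this
      exact this
    choose x hxS hxg using hex
    have hadj : ∀ g g', g ≠ g' → (graphOf S Z).Adj (x g) (x g') := by
      intro g g' hne
      apply hcl (hxS g) (hxS g')
      intro h
      apply hne
      rw [← hxg g, ← hxg g', h]
    have hcons : ∀ g g', g ≠ g' → ∃ s, vert S s g = x g ∧ vert S s g' = x g' := by
      intro g g' hne
      obtain ⟨s, h1, h2⟩ := (base_of_adj S (hadj g g' hne)).2
      rw [hxg] at h1 h2
      exact ⟨s, h1, h2⟩
    -- the message
    set t : Fin m → ZMod 2 := fun v =>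
      if h : ∃ p : Fin a × Bool × Fin b × Fin k, S (p.1, (p.2.1, p.2.2.1)) p.2.2.2 = v then
        lab2 (x (.inr (.inl h.choose))) else 0 with ht
    have hA : ∀ i h j l, lab2 (x (.inr (.inl (i, h, j, l)))) = t (S (i, (h, j)) l) := by
      intro i h j l
      have hex : ∃ p : Fin a × Bool × Fin b × Fin k,
          S (p.1, (p.2.1, p.2.2.1)) p.2.2.2 = S (i, (h, j)) l := ⟨(i, h, j, l), rfl⟩
      have ht' : t (S (i, (h, j)) l) = lab2 (x (.inr (.inl hex.choose))) := by
        rw [ht]
        simp only
        rw [dif_pos hex]
      rw [ht']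
      have hch := hex.choose_spec
      generalize hex.choose = p at hch
      by_cases he : (i, h, j, l) = p
      · rw [he]
      · obtain ⟨s, h1, h2⟩ := hcons (.inr (.inl (i, h, j, l))) (.inr (.inl p))
          (by intro e; apply he; simpa using e)
        rw [← h1, ← h2]
        change s (S (i, (h, j)) l) = s (S (p.1, (p.2.1, p.2.2.1)) p.2.2.2)
        rw [hch]
    have hB : ∀ κ : ℕ, ∀ i h j, ∀ l : Fin k, (l : ℕ) = κ →
        lab1 (x (.inr (.inl (i, h, j, l)))) = psum S (i, (h, j)) κ t := by
      intro κ
      induction κ with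
      | zero =>
        intro i h j l hl
        obtain ⟨s, h1, _⟩ := hcons (.inr (.inl (i, h, j, l))) (.inl (i, h)) (by simp)
        rw [← h1, psum_zero]
        change psum S (i, (h, j)) (l : ℕ) s = _
        rw [hl, psum_zero]
      | succ κ ih =>
        intro i h j l hl
        have hkm : κ < k := by have := l.isLt; omega
        set l' : Fin k := ⟨κ, hkm⟩ with hl'
        obtain ⟨s, h1, h2⟩ := hcons (.inr (.inl (i, h, j, l'))) (.inr (.inl (i, h, j, l))) (by
          intro e
          simp only [Sum.inr.injEq, Sum.inl.injEq, Prod.mk.injEq, true_and] at e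
          rw [← e] at hl
          simp [hl'] at hl)
        have h3 := ih i h j l' rfl
        have h4 := hA i h j l'
        rw [← h1] at h3 h4
        rw [← h2]
        change psum S (i, (h, j)) (l' : ℕ) s = _ at h3
        change s (S (i, (h, j)) l') = _ at h4
        change psum S (i, (h, j)) (l : ℕ) s = _
        have h5 : (l : ℕ) = (l' : ℕ) + 1 := hl
        have h6 : κ + 1 = (l' : ℕ) + 1 := rfl
        rw [h5, h6, psum_succ, psum_succ, h4, h3]
    have hC : ∀ i h j, lab0 (x (.inl (i, h))) j = sparseCode S t i (h, j) := by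
      intro i h j
      set l' : Fin k := ⟨k - 1, by omega⟩ with hl'
      obtain ⟨s, h1, h2⟩ := hcons (.inl (i, h)) (.inr (.inl (i, h, j, l'))) (by simp)
      have h3 := hB (k - 1) i h j l' rfl
      have h4 := hA i h j l'
      rw [← h2] at h3 h4
      rw [← h1]
      change psum S (i, (h, j)) (l' : ℕ) s = _ at h3
      change s (S (i, (h, j)) l') = _ at h4
      change sparseCode S s i (h, j) = _
      have h5 : k = (l' : ℕ) + 1 := by simp [hl']; omega
      have h6 : ∀ s : Fin m → ZMod 2, sparseCode S s i (h, j) =
          psum S (i, (h, j)) (l' : ℕ) s + s (S (i, (h, j)) l') := by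
        intro s
        rw [← psum_succ, ← h5, psum_full]
      rw [h6 s, h6 t, h3, h4]
    refine ⟨t, ?_⟩
    intro p hp
    have hp' := mem_wordSet.1 hp
    obtain ⟨i, y⟩ := p
    simp only at hp'
    subst hp'
    have h8 := hadj (.inl (i, false)) (.inl (i, true)) (by simp)
    have h9 := base_of_adj S h8
    rw [graphOf_adj] at h8
    unfold edge at h8
    rw [if_pos h9] at h8
    have hx1 : ∀ h, x (.inl (i, h)) = .inl ((i, h), lab0 (x (.inl (i, h)))) := by
      intro h
      have := hxg (.inl (i, h))
      revert this
      generalize x (.inl (i, h)) = w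
      intro hw
      rcases w with ⟨p, z⟩ | w | w
      · simp only [grp, Sum.inl.injEq] at hw
        subst hw
        rfl
      · simp [grp] at hw
      · simp [grp] at hw
    rw [hx1 false, hx1 true] at h8
    simp only [label, if_true, Sum.elim_inl] at h8
    have h10 : comb false (lab0 (x (.inl (i, false)))) (lab0 (x (.inl (i, true))))
        = sparseCode S t i := by
      funext p
      obtain ⟨p1, p2⟩ := p
      simp only [comb]
      cases p1
      · simp [hC]
      · simp [hC]
    rw [h10] at h8
    exact h8
  · rintro ⟨s, hs⟩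
    refine ⟨univ.image (vert S s), ?_⟩
    rw [SimpleGraph.isNClique_iff]
    constructor
    · intro x hx y hy hne
      rw [Finset.coe_image, Set.mem_image] at hx hy
      obtain ⟨g, _, rfl⟩ := hx
      obtain ⟨g', _, rfl⟩ := hy
      have hgg : g ≠ g' := fun e => hne (by rw [e])
      have hbase : Base S (vert S s g) (vert S s g') := by
        refine ⟨by rw [grp_vert, grp_vert]; exact hgg, s, ?_, ?_⟩
        · rw [grp_vert]
        · rw [grp_vert]
      rw [graphOf_adj]
      unfold edge
      rw [if_pos hbase]
      rcases g with ⟨i, h⟩ | g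
      · rcases g' with ⟨i', h'⟩ | g'
        · simp only [vert, label]
          by_cases hi : i = i'
          · subst hi
            rw [if_pos rfl, Sum.elim_inl]
            apply hs
            rw [mem_wordSet]
            simp only
            funext p
            obtain ⟨p1, p2⟩ := p
            have hh : h ≠ h' := fun e => hgg (by rw [e])
            simp only [comb]
            cases p1 <;> cases h <;> cases h' <;> simp_all
          · rw [if_neg hi]
            rfl
        · rcases g' with g' | g' <;> rfl
      · rcases g with g | g <;> rfl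
    · rw [Finset.card_image_of_injective, Finset.card_univ]
      intro g g' h
      rw [← grp_vert S s g, ← grp_vert S s g', h]

/-- The projection from the clique problem on `M` vertices. -/
noncomputable def proj {M : ℕ} (f : Vtx a b k u ↪ Fin M) : Fin M × Fin M → Ground a b ⊕ Bool := by
  classical
  exact fun p => if h : ∃ q : Vtx a b k u × Vtx a b k u, f q.1 = p.1 ∧ f q.2 = p.2 then
    edge S h.choose.1 h.choose.2 else .inr false

theorem pull_proj {M : ℕ} (f : Vtx a b k u ↪ Fin M) (Z : Finset (Ground a b)) :
    pull (proj S f) (chi Z) = graphInput ((graphOf S Z).map f) := by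
  classical
  funext p
  unfold pull proj graphInput
  split_ifs with h
  · have h1 := h.choose_spec
    generalize h.choose = q at h1
    obtain ⟨x, y⟩ := q
    simp only at h1 ⊢
    have h2 : ((graphOf S Z).map f).Adj p.1 p.2 ↔ (graphOf S Z).Adj x y := by
      rw [SimpleGraph.map_adj]
      constructor
      · rintro ⟨x', y', h3, h4, h5⟩
        have e1 : x' = x := f.injective (h4.trans h1.1.symm)
        have e2 : y' = y := f.injective (h5.trans h1.2.symm)
        rw [← e1, ← e2]
        exact h3
      · intro h3
        exact ⟨x, y, h3, h1.1, h1.2⟩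
    have key : (Sum.elim (chi Z) id (edge S x y) = true)
        ↔ ((graphOf S Z).map f).Adj p.1 p.2 := by
      rw [h2, graphOf_adj]
      cases hE : edge S x y with
      | inl q => simp [chi]
      | inr c => simp
    rw [Bool.eq_iff_iff]
    simp only [decide_eq_true_eq]
    exact key
  · have h2 : ¬ ((graphOf S Z).map f).Adj p.1 p.2 := by
      rw [SimpleGraph.map_adj]
      rintro ⟨x', y', _, h4, h5⟩
      exact h ⟨(x', y'), h4, h5⟩
    simp [h2]

theorem exists_clique_map {M κ : ℕ} [Nonempty (Vtx a b k u)] (f : Vtx a b k u ↪ Fin M)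
    (Z : Finset (Ground a b)) :
    (∃ T, ((graphOf S Z).map f).IsNClique κ T) ↔ ∃ T, (graphOf (u := u) S Z).IsNClique κ T := by
  have := SimpleGraph.cliqueFree_map_iff (G := graphOf (u := u) S Z) (f := f) (n := κ)
  unfold SimpleGraph.CliqueFree at this
  constructor
  · intro h
    by_contra hc
    push Not at hc
    obtain ⟨T, hT⟩ := h
    exact this.2 hc T hT
  · intro h
    by_contra hc
    push Not at hc
    obtain ⟨T, hT⟩ := h
    exact this.1 hc T hT

end Pool.Agent.T9h34.G
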