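import Pool.Agent.T9h34.Noise
import Pool.Agent.T9h34.Average

/-!
General noise operators.
-/

namespace Pool.Agent.T9h34.G

open Finset

/-- Expectation over a random set. -/
structure NoiseOp (X : Type*) where
  /-- the expectation -/
  E : (Finset X → ℝ) → ℝ
  mono' : ∀ F G : Finset X → ℝ, (∀ z, F z ≤ G z) → E F ≤ E G
  add' : ∀ F G : Finset X → ℝ, E (fun z => F z + G z) = E F + E G
  const_mul' : ∀ (c : ℝ) (F : Finset X → ℝ), E (fun z => c * F z) = c * E F
  const' : ∀ c : ℝ, E (fun _ => c) = c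

variable {X : Type*} [DecidableEq X] (N : NoiseOp X)

/-- Expectation over the union of `k` independent copies. -/
noncomputable def NoiseOp.iter : ℕ → (Finset X → ℝ) → ℝ
  | 0, F => F ∅
  | k + 1, F => N.E (fun z => NoiseOp.iter k (fun U => F (z ∪ U)))

omit [DecidableEq X] in
theorem NoiseOp.mono {F G : Finset X → ℝ} (h : ∀ z, F z ≤ G z) : N.E F ≤ N.E G := N.mono' F G h

omit [DecidableEq X] in
theorem NoiseOp.nonneg {F : Finset X → ℝ} (h : ∀ z, 0 ≤ F z) : 0 ≤ N.E F := by
  have := N.mono (F := fun _ => (0 : ℝ)) (G := F) h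
  rwa [N.const'] at this

omit [DecidableEq X] in
theorem NoiseOp.le_one {F : Finset X → ℝ} (h : ∀ z, F z ≤ 1) : N.E F ≤ 1 := by
  have := N.mono (F := F) (G := fun _ => (1 : ℝ)) h
  rwa [N.const'] at this

omit [DecidableEq X] in
theorem NoiseOp.sub (F G : Finset X → ℝ) : N.E (fun z => F z - G z) = N.E F - N.E G := by
  have h1 : (fun z => F z - G z) = fun z => F z + (-1) * G z := by funext z; ring
  rw [h1, N.add', N.const_mul']
  ring

theorem NoiseOp.iter_mono (k : ℕ) {F G : Finset X → ℝ} (h : ∀ z, F z ≤ G z) :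
    N.iter k F ≤ N.iter k G := by
  induction k generalizing F G with
  | zero => exact h _
  | succ k ih => exact N.mono (fun z => ih (fun U => h _))

theorem NoiseOp.iter_add (k : ℕ) (F G : Finset X → ℝ) :
    N.iter k (fun z => F z + G z) = N.iter k F + N.iter k G := by
  induction k generalizing F G with
  | zero => rfl
  | succ k ih =>
    simp only [NoiseOp.iter]
    rw [← N.add']
    congr 1
    funext z
    exact ih _ _

theorem NoiseOp.iter_const_mul (k : ℕ) (c : ℝ) (F : Finset X → ℝ) :
    N.iter k (fun z => c * F z) = c * N.iter k F := by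
  induction k generalizing F with
  | zero => rfl
  | succ k ih =>
    simp only [NoiseOp.iter]
    rw [← N.const_mul']
    congr 1
    funext z
    exact ih _

theorem NoiseOp.iter_sub (k : ℕ) (F G : Finset X → ℝ) :
    N.iter k (fun z => F z - G z) = N.iter k F - N.iter k G := by
  have h1 : (fun z => F z - G z) = fun z => F z + (-1) * G z := by funext z; ring
  rw [h1, N.iter_add, N.iter_const_mul]
  ring

theorem NoiseOp.iter_const (k : ℕ) (c : ℝ) : N.iter k (fun _ => c) = c := by
  induction k with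
  | zero => rfl
  | succ k ih =>
    simp only [NoiseOp.iter]
    rw [ih]
    exact N.const' c

theorem NoiseOp.iter_nonneg (k : ℕ) {F : Finset X → ℝ} (h : ∀ z, 0 ≤ F z) : 0 ≤ N.iter k F := by
  have := N.iter_mono k (F := fun _ => (0 : ℝ)) (G := F) h
  rwa [N.iter_const] at this

theorem NoiseOp.iter_le_one (k : ℕ) {F : Finset X → ℝ} (h : ∀ z, F z ≤ 1) : N.iter k F ≤ 1 := by
  have := N.iter_mono k (F := F) (G := fun _ => (1 : ℝ)) h
  rwa [N.iter_const] at this

theorem NoiseOp.iter_add_rounds (k l : ℕ) (F : Finset X → ℝ) :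
    N.iter (k + l) F = N.iter k (fun U => N.iter l (fun W => F (U ∪ W))) := by
  induction k generalizing F with
  | zero => simp [NoiseOp.iter]
  | succ k ih =>
    rw [Nat.succ_add]
    simp only [NoiseOp.iter]
    congr 1
    funext z
    rw [ih]
    simp only [Finset.union_assoc]

theorem NoiseOp.iter_one (F : Finset X → ℝ) : N.iter 1 F = N.E F := by
  simp [NoiseOp.iter]

theorem NoiseOp.iter_sum {α : Type*} (k : ℕ) (s : Finset α) (F : α → Finset X → ℝ) :
    N.iter k (fun U => ∑ a ∈ s, F a U) = ∑ a ∈ s, N.iter k (F a) := by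
  classical
  induction s using Finset.induction_on with
  | empty => simp [N.iter_const]
  | insert a s ha ih =>
    simp only [Finset.sum_insert ha]
    rw [N.iter_add, ih]

/-- Iterating the noise makes the failure probability decay geometrically. -/
theorem NoiseOp.iter_not_cover (𝒯 : Finset (Finset X)) (k : ℕ) :
    N.iter k (fun W => ind (¬ ∃ T ∈ 𝒯, T ⊆ W))
      ≤ (1 - N.E (fun z => ind (∃ T ∈ 𝒯, T ⊆ z))) ^ k := by
  set q := 1 - N.E (fun z => ind (∃ T ∈ 𝒯, T ⊆ z)) with hq
  have hq' : N.E (fun z => ind (¬ ∃ T ∈ 𝒯, T ⊆ z)) = q := by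
    rw [hq]
    have : (fun z : Finset X => ind (¬ ∃ T ∈ 𝒯, T ⊆ z))
        = fun z => (1 : ℝ) - ind (∃ T ∈ 𝒯, T ⊆ z) := by
      funext z; exact ind_compl _
    rw [this, N.sub, N.const']
  have hq0 : 0 ≤ q := by rw [← hq']; exact N.nonneg (fun z => ind_nonneg _)
  induction k with
  | zero =>
    simp only [NoiseOp.iter, pow_zero]
    exact ind_le_one _
  | succ k ih =>
    simp only [NoiseOp.iter]
    have h1 : ∀ z : Finset X, N.iter k (fun U => ind (¬ ∃ T ∈ 𝒯, T ⊆ z ∪ U))
        ≤ q ^ k * ind (¬ ∃ T ∈ 𝒯, T ⊆ z) := by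
      intro z
      have h2 : ∀ U : Finset X, ind (¬ ∃ T ∈ 𝒯, T ⊆ z ∪ U)
          ≤ ind (¬ ∃ T ∈ 𝒯, T ⊆ z) * ind (¬ ∃ T ∈ 𝒯, T ⊆ U) := by
        intro U
        rw [← ind_and]
        apply ind_mono
        intro h
        refine ⟨fun ⟨T, hT, hTz⟩ => h ⟨T, hT, hTz.trans Finset.subset_union_left⟩,
          fun ⟨T, hT, hTz⟩ => h ⟨T, hT, hTz.trans Finset.subset_union_right⟩⟩
      refine le_trans (N.iter_mono k h2) ?_
      rw [N.iter_const_mul]
      rw [mul_comm]
      exact mul_le_mul_of_nonneg_right ih (ind_nonneg _)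
    refine le_trans (N.mono h1) ?_
    rw [N.const_mul', hq', pow_succ]

/-- The union of `J` independent product noise sets of density `1 / D`. -/
noncomputable def enNoise [Fintype X] {D : ℕ} (hD : 0 < D) (J : ℕ) : NoiseOp X where
  E := En D J
  mono' _ _ h := En_mono J h
  add' F G := En_add D J F G
  const_mul' c F := En_const_mul D J c F
  const' c := En_const hD J c

theorem enNoise_iter [Fintype X] {D : ℕ} (hD : 0 < D) (J k : ℕ) (F : Finset X → ℝ) :
    (enNoise hD J).iter k F = En D (k * J) F := by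
  induction k generalizing F with
  | zero => simp [NoiseOp.iter, En]
  | succ k ih =>
    simp only [NoiseOp.iter]
    have h1 : (k + 1) * J = J + k * J := by ring
    rw [h1, En_add_rounds]
    change En D J _ = _
    congr 1
    funext z
    exact ih _

end Pool.Agent.T9h34.G
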