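import Pool.Agent.T9h34.G.SpreadMain

/-!
Copies: the spread lemma gives lower bounds for small covering probabilities.
-/

namespace Pool.Agent.T9h34.G

open Finset

variable {X : Type*} [Fintype X] [DecidableEq X]

/-- A slice of a set of pairs. -/
def slice {s : ℕ} (W : Finset (X × Fin s)) (a : Fin s) : Finset X :=
  univ.filter (fun x => (x, a) ∈ W)

theorem slice_union {s : ℕ} (W U : Finset (X × Fin s)) (a : Fin s) :
    slice (W ∪ U) a = slice W a ∪ slice U a := by
  ext x
  simp [slice]

theorem slice_zset {s D : ℕ} (φ : X × Fin s → Fin D) (a : Fin s) :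
    slice (zset D φ) a = zset D (fun x => φ (x, a)) := by
  ext x
  simp [slice, zset]

theorem slice_empty {s : ℕ} (a : Fin s) : slice (∅ : Finset (X × Fin s)) a = ∅ := by
  ext x
  simp [slice]

theorem Ez_slices (D : ℕ) (s : ℕ) (g : Fin s → Finset X → ℝ) :
    Ez D (fun W : Finset (X × Fin s) => ∏ a, g a (slice W a)) = ∏ a, Ez D (g a) := by
  classical
  unfold Ez
  have h1 : ∀ a : Fin s, (∑ φ : X → Fin D, g a (zset D φ)) / (D : ℝ) ^ Fintype.card X
      = (∑ φ : X → Fin D, g a (zset D φ)) * ((D : ℝ) ^ Fintype.card X)⁻¹ := by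
    intro a
    rw [div_eq_mul_inv]
  simp only [h1]
  rw [Finset.prod_mul_distrib, Finset.prod_const, Finset.card_univ, Fintype.card_fin,
    Finset.prod_univ_sum, Fintype.piFinset_univ, div_eq_mul_inv]
  congr 1
  · apply Fintype.sum_equiv
      ((Equiv.piCongrLeft' (fun _ => Fin D) (Equiv.prodComm X (Fin s))).trans
        (Equiv.curry (Fin s) X (Fin D)))
    intro φ
    apply Finset.prod_congr rfl
    intro a _
    rw [slice_zset]
    rfl
  · rw [Fintype.card_prod, Fintype.card_fin, pow_mul, inv_pow]

theorem En_slices (D : ℕ) (s J : ℕ) (g : Fin s → Finset X → ℝ) :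
    En D J (fun W : Finset (X × Fin s) => ∏ a, g a (slice W a)) = ∏ a, En D J (g a) := by
  induction J generalizing g with
  | zero =>
    simp only [En]
    apply Finset.prod_congr rfl
    intro a _
    rw [slice_empty]
  | succ J ih =>
    simp only [En]
    rw [← Ez_slices D s (fun a z => En D J (fun U => g a (z ∪ U)))]
    congr 1
    funext z
    simp only [slice_union]
    exact ih (fun a U => g a (slice z a ∪ U))

theorem ind_all {s : ℕ} (p : Fin s → Prop) : ind (∀ a, p a) = ∏ a, ind (p a) := by
  classical
  by_cases h : ∀ a, p a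
  · rw [ind_of h]
    symm
    apply Finset.prod_eq_one
    intro a _
    exact ind_of (h a)
  · rw [ind_not h]
    push Not at h
    obtain ⟨a, ha⟩ := h
    symm
    apply Finset.prod_eq_zero (Finset.mem_univ a)
    exact ind_not ha

open Classical in
/-- The basic inequality for a family of sets with small degrees. -/
theorem family_bound {D : ℕ} (hD : 0 < D) {J c : ℕ} (hJ1 : 1 ≤ J) (hJ : c < 2 ^ J) {B : ℝ}
    (hB : B = 32 * J * D) {ι : Type*} (I : Finset ι) (F : ι → Finset X) {n : ℕ} (hn : n ≤ c)
    (hcard : ∀ i ∈ I, (F i).card = n)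
    (hdeg : ∀ K : Finset X, K.Nonempty → ((I.filter (fun i => K ⊆ F i)).card : ℝ) ≤
      B ^ (n - K.card)) :
    (I.card : ℝ) * En D J (fun W => ind (¬ ∃ i ∈ I, F i ⊆ W)) ≤ B ^ n / 4 := by
  have hD1 : (1 : ℝ) ≤ D := by exact_mod_cast hD
  have hJ1' : (1 : ℝ) ≤ J := by exact_mod_cast hJ1
  have hDJ : (D : ℝ) ≤ J * D := by nlinarith
  have hB0 : 0 < B := by rw [hB]; nlinarith
  have hBD : 8 * (D : ℝ) ≤ B := by rw [hB]; nlinarith
  have h1 := spread_rounds hD (N := B ^ n) (R := B) (by positivity) hB0 hBD J n I F
    (lt_of_le_of_lt hn hJ) (fun i hi => (hcard i hi).le) (by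
      intro K hK
      by_cases hKn : K.card ≤ n
      · refine (hdeg K hK).trans (le_of_eq ?_)
        rw [eq_div_iff (by positivity), ← pow_add]
        congr 1
        omega
      · have : I.filter (fun i => K ⊆ F i) = ∅ := by
          rw [Finset.eq_empty_iff_forall_notMem]
          intro i hi
          rw [Finset.mem_filter] at hi
          have h2 := Finset.card_le_card hi.2
          rw [hcard i hi.1] at h2
          exact hKn h2
        rw [this, Finset.card_empty, Nat.cast_zero]
        positivity)
  refine h1.trans (le_of_eq ?_)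
  have h3 : (J : ℝ) * (8 * D / B * B ^ n) = (8 * (J * D)) * B ^ n / B := by ring
  rw [h3]
  have h4 : (J : ℝ) * D = B / 32 := by rw [hB]; ring
  rw [h4]
  field_simp
  ring

/-- The covering property of several rounds of product noise. -/
theorem covers_enNoise {D : ℕ} (hD : 0 < D) {J c : ℕ} (hJ1 : 1 ≤ J) (hJ : c < 2 ^ J) :
    Covers (enNoise (X := X) hD J) c (32 * J * D) := by
  classical
  intro n 𝒯 hn hcard hdeg
  set B : ℝ := 32 * J * D with hB
  have hD1 : (1 : ℝ) ≤ D := by exact_mod_cast hD
  have hJ1' : (1 : ℝ) ≤ J := by exact_mod_cast hJ1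
  have hDJ : (D : ℝ) ≤ J * D := by nlinarith
  have hB0 : 0 < B := by rw [hB]; nlinarith
  have hBn : 0 < B ^ n := by positivity
  set P := (enNoise (X := X) hD J).E (fun z => ind (∃ T ∈ 𝒯, T ⊆ z)) with hP
  have hP0 : 0 ≤ P := NoiseOp.nonneg _ (fun z => ind_nonneg _)
  have hP1 : P ≤ 1 := NoiseOp.le_one _ (fun z => ind_le_one _)
  have hQ : En D J (fun z => ind (¬ ∃ T ∈ 𝒯, T ⊆ z)) = 1 - P := by
    have h1 : (fun z : Finset X => ind (¬ ∃ T ∈ 𝒯, T ⊆ z))
        = fun z => (1 : ℝ) - ind (∃ T ∈ 𝒯, T ⊆ z) := by
      funext z; exact ind_compl _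
    rw [h1]
    have h2 := NoiseOp.sub (enNoise (X := X) hD J) (fun _ => (1 : ℝ))
      (fun z => ind (∃ T ∈ 𝒯, T ⊆ z))
    rw [NoiseOp.const'] at h2
    exact h2
  have hA := family_bound hD hJ1 hJ hB 𝒯 (fun T => T) hn hcard (by
    intro K hK
    refine le_trans (le_of_eq ?_) (hdeg K hK)
    congr!)
  rw [hQ] at hA
  set m : ℝ := (𝒯.card : ℝ) with hm
  have hm0 : 0 ≤ m := by positivity
  refine ⟨?_, ?_⟩
  · intro hlt
    by_contra hcon
    push Not at hcon
    have h1 : m * (1 / 2) ≤ m * (1 - P) := mul_le_mul_of_nonneg_left hcon hm0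
    linarith
  · by_cases hlt : B ^ n < m
    · have hhalf : 1 - P < 1 / 2 := by
        by_contra hcon
        push Not at hcon
        have h1 : m * (1 / 2) ≤ m * (1 - P) := mul_le_mul_of_nonneg_left hcon hm0
        linarith
      have h2 : 4 * (1 / 2) * B ^ n ≤ 4 * P * B ^ n :=
        mul_le_mul_of_nonneg_right (by linarith) hBn.le
      linarith
    · push Not at hlt
      rcases Nat.eq_zero_or_pos 𝒯.card with hz | hz
      · have : m = 0 := by rw [hm, hz]; norm_num
        rw [this, zero_mul]
        positivity
      have hmpos : 0 < m := by rw [hm]; exact_mod_cast hz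
      set s := ⌈B ^ n / m⌉₊ with hs
      have hs1 : B ^ n / m ≤ s := Nat.le_ceil _
      have hs2 : (s : ℝ) < B ^ n / m + 1 := Nat.ceil_lt_add_one (by positivity)
      have hq1 : 1 ≤ B ^ n / m := by rw [le_div_iff₀ hmpos]; linarith
      have hms : B ^ n ≤ m * s := by
        rw [div_le_iff₀ hmpos] at hs1
        linarith
      have hms2 : m * s ≤ 2 * B ^ n := by
        have h1 : (s : ℝ) ≤ 2 * (B ^ n / m) := by linarith
        calc m * s ≤ m * (2 * (B ^ n / m)) := mul_le_mul_of_nonneg_left h1 hm0
          _ = 2 * B ^ n := by field_simp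
      -- the copies
      have hC := family_bound (X := X × Fin s) hD hJ1 hJ hB (𝒯 ×ˢ (univ : Finset (Fin s)))
        (fun p => p.1 ×ˢ {p.2}) hn (by
          intro p hp
          rw [Finset.mem_product] at hp
          rw [Finset.card_product, Finset.card_singleton, mul_one]
          exact hcard _ hp.1) (by
          intro K hK
          obtain ⟨⟨x0, a0⟩, hx0⟩ := hK
          by_cases hKa : ∀ p ∈ K, p.2 = a0
          · have hKc : (K.image Prod.fst).card = K.card := by
              apply Finset.card_image_of_injOn
              intro p hp q hq hpq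
              exact Prod.ext hpq ((hKa p hp).trans (hKa q hq).symm)
            have hle : (((𝒯 ×ˢ (univ : Finset (Fin s))).filter
                (fun p => K ⊆ p.1 ×ˢ {p.2})).card : ℝ) ≤
                ((𝒯.filter (fun T => K.image Prod.fst ⊆ T)).card : ℝ) := by
              have := Finset.card_le_card_of_injOn (s := (𝒯 ×ˢ (univ : Finset (Fin s))).filter
                (fun p => K ⊆ p.1 ×ˢ {p.2})) (t := 𝒯.filter (fun T => K.image Prod.fst ⊆ T))
                Prod.fst (by
                  intro p hp
                  rw [Finset.mem_coe, Finset.mem_filter, Finset.mem_product] at hp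
                  rw [Finset.mem_coe, Finset.mem_filter]
                  refine ⟨hp.1.1, ?_⟩
                  intro x hx
                  rw [Finset.mem_image] at hx
                  obtain ⟨y, hy, rfl⟩ := hx
                  exact (Finset.mem_product.1 (hp.2 hy)).1) (by
                  intro p hp q hq hpq
                  rw [Finset.mem_coe, Finset.mem_filter] at hp hq
                  have h1 := (Finset.mem_product.1 (hp.2 hx0)).2
                  have h2 := (Finset.mem_product.1 (hq.2 hx0)).2
                  rw [Finset.mem_singleton] at h1 h2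
                  exact Prod.ext hpq (h1.symm.trans h2))
              exact_mod_cast this
            refine hle.trans ?_
            rw [← hKc]
            exact hdeg _ ⟨x0, Finset.mem_image.2 ⟨(x0, a0), hx0, rfl⟩⟩
          · have : (𝒯 ×ˢ (univ : Finset (Fin s))).filter (fun p => K ⊆ p.1 ×ˢ {p.2}) = ∅ := by
              rw [Finset.eq_empty_iff_forall_notMem]
              intro p hp
              rw [Finset.mem_filter] at hp
              apply hKa
              intro q hq
              have h1 := (Finset.mem_product.1 (hp.2 hx0)).2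
              have h2 := (Finset.mem_product.1 (hp.2 hq)).2
              rw [Finset.mem_singleton] at h1 h2
              exact h2.trans h1.symm
            rw [this, Finset.card_empty, Nat.cast_zero]
            positivity)
      have hprod : (fun W : Finset (X × Fin s) => ind (¬ ∃ i ∈ 𝒯 ×ˢ (univ : Finset (Fin s)),
          (i.1 ×ˢ {i.2} : Finset (X × Fin s)) ⊆ W)) =
          fun W => ∏ a, (fun (_ : Fin s) (U : Finset X) => ind (¬ ∃ T ∈ 𝒯, T ⊆ U)) a (slice W a) := by
        funext W
        rw [← ind_all]
        congr 1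
        apply propext
        constructor
        · rintro h a ⟨T, hT, hTa⟩
          apply h
          refine ⟨(T, a), Finset.mem_product.2 ⟨hT, Finset.mem_univ _⟩, ?_⟩
          intro p hp
          rw [Finset.mem_product, Finset.mem_singleton] at hp
          have := hTa hp.1
          simp only [slice, Finset.mem_filter, Finset.mem_univ, true_and] at this
          obtain ⟨x, b⟩ := p
          simp only at hp
          rw [hp.2]
          exact this
        · rintro h ⟨⟨T, a⟩, hT, hTa⟩
          apply h a
          refine ⟨T, (Finset.mem_product.1 hT).1, ?_⟩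
          intro x hx
          simp only [slice, Finset.mem_filter, Finset.mem_univ, true_and]
          exact hTa (Finset.mem_product.2 ⟨hx, Finset.mem_singleton.2 rfl⟩)
      have hS := En_slices D s J (fun (_ : Fin s) (U : Finset X) => ind (¬ ∃ T ∈ 𝒯, T ⊆ U))
      rw [hprod, hS, Finset.prod_const, Finset.card_univ, Fintype.card_fin, hQ,
        Finset.card_product, Finset.card_univ, Fintype.card_fin] at hC
      push_cast at hC
      rw [← hm] at hC
      have hbern : 1 + (s : ℝ) * (-P) ≤ (1 + (-P)) ^ s := one_add_mul_le_pow (by linarith) s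
      have h5 : (1 - P) ^ s ≤ 1 / 4 := by
        by_contra hcon
        push Not at hcon
        have h6 : B ^ n * (1 / 4) < m * s * (1 - P) ^ s := by
          calc B ^ n * (1 / 4) < B ^ n * (1 - P) ^ s := mul_lt_mul_of_pos_left hcon hBn
            _ ≤ m * s * (1 - P) ^ s := mul_le_mul_of_nonneg_right hms (by positivity)
        linarith
      have h7 : (3 : ℝ) / 4 ≤ s * P := by
        have : 1 + -P = 1 - P := by ring
        rw [this] at hbern
        linarith
      have h8 : m * (3 / 4) ≤ 2 * B ^ n * P := by
        calc m * (3 / 4) ≤ m * (s * P) := mul_le_mul_of_nonneg_left h7 hm0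
          _ = (m * s) * P := by ring
          _ ≤ 2 * B ^ n * P := mul_le_mul_of_nonneg_right hms2 hP0
      have h9 : m * (1 - P) ≤ m * 1 := mul_le_mul_of_nonneg_left (by linarith) hm0
      have h10 : 0 ≤ B ^ n * P := by positivity
      nlinarith

end Pool.Agent.T9h34.G
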