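import Pool.Agent.T9h34.ParamsAvg
import Pool.Agent.T9h34.G.Slices
import Pool.Agent.T9h34.G.Gadget
import Pool.Agent.T9h34.G.Average

/-!
Choice of the parameters, average-case version with product noise, sparse codes.
-/

namespace Pool.Agent.T9h34.G

open Finset

/-- A union of noise sets contains few of the positive tests. -/
theorem few_enNoise {X : Type*} [Fintype X] [DecidableEq X] {Ω : Type*} [Fintype Ω]
    {D : ℕ} (hD : 0 < D) (J k : ℕ) (v : Ω → Finset X) {a : ℕ} (hcard : ∀ ω, (v ω).card = a) :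
    (enNoise (X := X) hD J).iter k (fun U => ind (∃ ω, v ω ⊆ U)) ≤
      (Fintype.card Ω : ℝ) * (((k * J : ℕ) : ℝ) / D) ^ a := by
  rw [enNoise_iter]
  have h1 : ∀ U : Finset X, ind (∃ ω, v ω ⊆ U) ≤ ∑ ω : Ω, ind (v ω ⊆ U) := by
    intro U
    have := ind_exists_le (univ : Finset Ω) (fun ω => v ω ⊆ U)
    simpa using this
  refine (En_mono _ h1).trans ?_
  rw [En_sum hD]
  refine (Finset.sum_le_sum (fun ω _ => En_subset_le hD (k * J) (v ω))).trans (le_of_eq ?_)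
  simp only [hcard]
  rw [Finset.sum_const, Finset.card_univ, nsmul_eq_mul]

/-- The error term is negligible. -/
theorem err_bound {X : Type*} [Fintype X] [DecidableEq X] {lam l r s : ℕ} (hl : lam ≤ l)
    (hlam : 1 ≤ lam) (hs : s < 2 ^ l) (hr2 : r < 2 ^ (2 * lam))
    (hXcard : Fintype.card X + 1 ≤ 2 ^ (2 * lam)) :
    (r : ℝ) * err X (14 * (lam * l)) (2 * l) s ≤ 1 := by
  have hl1 : 1 ≤ l := le_trans hlam hl
  set L := 14 * (lam * l) with hL
  have hll : 1 ≤ lam * l := Nat.one_le_iff_ne_zero.2 (by positivity)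
  have hsm : ((smalls (X := X) (2 * (2 * l))).card : ℝ) ≤ 2 ^ (8 * (lam * l)) := by
    have h1 := card_smalls_le (X := X) (2 * (2 * l))
    have h2 : (Fintype.card X + 1) ^ (2 * (2 * l)) ≤ (2 ^ (2 * lam)) ^ (2 * (2 * l)) :=
      Nat.pow_le_pow_left hXcard _
    have h3 : (2 ^ (2 * lam)) ^ (2 * (2 * l)) = 2 ^ (8 * (lam * l)) := by
      rw [← pow_mul]; congr 1; ring
    rw [h3] at h2
    exact_mod_cast le_trans h1 h2
  unfold err
  have hrR : (r : ℝ) ≤ 2 ^ (2 * lam) := by exact_mod_cast hr2.le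
  have hsR : (s : ℝ) + 1 ≤ 2 ^ l := by exact_mod_cast hs
  have hlR : (2 : ℝ) ^ (2 * lam) ≤ 2 ^ (2 * l) :=
    pow_le_pow_right₀ (by norm_num) (by omega)
  have hs0 : (0 : ℝ) ≤ s := Nat.cast_nonneg s
  have hr0 : (0 : ℝ) ≤ r := Nat.cast_nonneg r
  have h1 : (r : ℝ) * (s * (1 / 4 : ℝ) ^ (2 * l)) ≤ 1 / 2 := by
    have h2 : (1 / 4 : ℝ) ^ (2 * l) = (1 / 2) ^ (4 * l) := by
      have : (1 / 4 : ℝ) = (1 / 2) ^ 2 := by norm_num
      rw [this, ← pow_mul]; congr 1; ring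
    rw [h2]
    have hp1 : (0 : ℝ) ≤ (1 / 2 : ℝ) ^ (4 * l) := pow_nonneg (by norm_num) _
    calc (r : ℝ) * (s * (1 / 2 : ℝ) ^ (4 * l))
        ≤ 2 ^ (2 * l) * (2 ^ l * (1 / 2 : ℝ) ^ (4 * l)) := by
          apply mul_le_mul (le_trans hrR hlR) _ (mul_nonneg hs0 hp1) (pow_nonneg (by norm_num) _)
          apply mul_le_mul_of_nonneg_right (by linarith) hp1
      _ = (1 / 2) ^ l := by
          have h3 : (1 / 2 : ℝ) ^ (4 * l) = (1 / 2) ^ (3 * l) * (1 / 2) ^ l := by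
            rw [← pow_add]; congr 1; ring
          have h4 : (2 : ℝ) ^ (2 * l) * 2 ^ l = 2 ^ (3 * l) := by
            rw [← pow_add]; congr 1; ring
          have h5 : (2 : ℝ) ^ (3 * l) * (1 / 2) ^ (3 * l) = 1 := by
            rw [← mul_pow]; norm_num
          rw [h3]
          calc (2 : ℝ) ^ (2 * l) * (2 ^ l * ((1 / 2) ^ (3 * l) * (1 / 2) ^ l))
              = (2 ^ (2 * l) * 2 ^ l) * (1 / 2) ^ (3 * l) * (1 / 2) ^ l := by ring
            _ = (1 / 2) ^ l := by rw [h4, h5, one_mul]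
      _ ≤ (1 / 2) ^ 1 := pow_le_pow_of_le_one (by norm_num) (by norm_num) hl1
      _ = 1 / 2 := by norm_num
  have h2 : (r : ℝ) * (3 * ((s + 1) * (((smalls (X := X) (2 * (2 * l))).card : ℝ)
      * (1 / 2 : ℝ) ^ L))) ≤ 1 / 2 := by
    have hp1 : (0 : ℝ) ≤ (1 / 2 : ℝ) ^ L := pow_nonneg (by norm_num) _
    have hc0 : (0 : ℝ) ≤ ((smalls (X := X) (2 * (2 * l))).card : ℝ) := Nat.cast_nonneg _
    calc (r : ℝ) * (3 * ((s + 1) * (((smalls (X := X) (2 * (2 * l))).card : ℝ)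
          * (1 / 2 : ℝ) ^ L)))
        ≤ 2 ^ (2 * lam) * (4 * (2 ^ l * (2 ^ (8 * (lam * l)) * (1 / 2 : ℝ) ^ L))) := by
          apply mul_le_mul hrR _ _ (pow_nonneg (by norm_num) _)
          · apply mul_le_mul (by norm_num) _ _ (by norm_num)
            · apply mul_le_mul hsR _ (mul_nonneg hc0 hp1) (pow_nonneg (by norm_num) _)
              exact mul_le_mul_of_nonneg_right hsm hp1
            · exact mul_nonneg (by linarith) (mul_nonneg hc0 hp1)
          · exact mul_nonneg (by norm_num) (mul_nonneg (by linarith) (mul_nonneg hc0 hp1))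
      _ = 2 ^ (2 * lam + 2 + l + 8 * (lam * l)) * (1 / 2 : ℝ) ^ L := by
          rw [pow_add, pow_add, pow_add]; norm_num; ring
      _ ≤ 2 ^ (L - 1) * (1 / 2 : ℝ) ^ L := by
          apply mul_le_mul_of_nonneg_right _ hp1
          apply pow_le_pow_right₀ (by norm_num)
          have h3 : lam ≤ lam * l := Nat.le_mul_of_pos_right _ hl1
          have h4 : l ≤ lam * l := Nat.le_mul_of_pos_left _ hlam
          omega
      _ = 1 / 2 := by
          have h5 : L = (L - 1) + 1 := by omega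
          have h6 : (1 / 2 : ℝ) ^ L = (1 / 2) ^ (L - 1) * (1 / 2) := by
            conv_lhs => rw [h5]
            rw [pow_succ]
          rw [h6, ← mul_assoc, ← mul_pow]
          norm_num
  rw [mul_add]
  linarith

/-- The arithmetic of the choice of the number of bits. -/
theorem bits {n lam l : ℕ} (hn : n < 2 ^ lam) (hl : lam ≤ l) (hlam : 1 ≤ lam)
    (hbig : 1070530560 * lam ^ 7 * l ^ 3 < n ^ 2) :
    ∃ b : ℕ, 1 ≤ b ∧ b ≤ lam ∧ 2 ^ b ≤ n ∧ 2 ^ b * (264 * lam ^ 2 * l) ≤ n ∧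
      n < 2 ^ b * (528 * lam ^ 2 * l) ∧ 3840 * (lam ^ 3 * l) ≤ 2 ^ (2 * b) ∧
      2112 * lam ^ 4 * l ≤ n := by
  have hl1 : 1 ≤ l := le_trans hlam hl
  have h264 : 0 < 264 * lam ^ 2 * l := by positivity
  have hn528 : 528 * lam ^ 2 * l < n := by
    by_contra hlt
    push Not at hlt
    have h1 : n ^ 2 ≤ (528 * lam ^ 2 * l) ^ 2 := Nat.pow_le_pow_left hlt 2
    have h2 : (528 * lam ^ 2 * l) ^ 2 = 278784 * (lam ^ 4 * l ^ 2) := by ring
    have h3 : lam ^ 4 * l ^ 2 ≤ lam ^ 7 * l ^ 3 :=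
      Nat.mul_le_mul (Nat.pow_le_pow_right hlam (by norm_num))
        (Nat.pow_le_pow_right hl1 (by norm_num))
    have h4 : 1070530560 * lam ^ 7 * l ^ 3 = 1070530560 * (lam ^ 7 * l ^ 3) := by ring
    omega
  have hn2112 : 2112 * lam ^ 4 * l ≤ n := by
    by_contra hlt
    push Not at hlt
    have h1 : n ^ 2 ≤ (2112 * lam ^ 4 * l) ^ 2 := Nat.pow_le_pow_left hlt.le 2
    have h2 : (2112 * lam ^ 4 * l) ^ 2 = 4460544 * (lam ^ 8 * l ^ 2) := by ring
    have h3 : lam ^ 8 * l ^ 2 ≤ lam ^ 7 * l ^ 3 := by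
      calc lam ^ 8 * l ^ 2 = lam ^ 7 * (lam * l ^ 2) := by ring
        _ ≤ lam ^ 7 * (l * l ^ 2) := Nat.mul_le_mul_left _ (Nat.mul_le_mul_right _ hl)
        _ = lam ^ 7 * l ^ 3 := by ring
    have h4 : 1070530560 * lam ^ 7 * l ^ 3 = 1070530560 * (lam ^ 7 * l ^ 3) := by ring
    omega
  refine ⟨Nat.log 2 (n / (264 * lam ^ 2 * l)), ?_⟩
  set b := Nat.log 2 (n / (264 * lam ^ 2 * l)) with hb
  have hq : 2 ≤ n / (264 * lam ^ 2 * l) := by
    rw [Nat.le_div_iff_mul_le h264]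
    have h3 : 2 * (264 * lam ^ 2 * l) = 528 * lam ^ 2 * l := by ring
    rw [h3]
    omega
  have hb1 : 1 ≤ b := Nat.log_pos (by norm_num) hq
  have h2b : 2 ^ b * (264 * lam ^ 2 * l) ≤ n := by
    have := Nat.pow_log_le_self 2 (x := n / (264 * lam ^ 2 * l)) (by omega)
    rw [← hb] at this
    exact le_trans (Nat.mul_le_mul_right _ this) (Nat.div_mul_le_self _ _)
  have h2b' : n < 2 ^ b * (528 * lam ^ 2 * l) := by
    have := Nat.lt_pow_succ_log_self (b := 2) (by norm_num) (n / (264 * lam ^ 2 * l))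
    rw [← hb, Nat.div_lt_iff_lt_mul h264, pow_succ] at this
    calc n < 2 ^ b * 2 * (264 * lam ^ 2 * l) := this
      _ = 2 ^ b * (528 * lam ^ 2 * l) := by ring
  have hbn : 2 ^ b ≤ n := le_trans (Nat.le_mul_of_pos_right _ h264) h2b
  have hblam : b ≤ lam := by
    by_contra hlt
    push Not at hlt
    have : 2 ^ lam ≤ 2 ^ b := Nat.pow_le_pow_right (by norm_num) hlt.le
    omega
  refine ⟨hb1, hblam, hbn, h2b, h2b', ?_, hn2112⟩
  by_contra hlt
  push Not at hlt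
  have h1 : n ^ 2 ≤ (2 ^ b * (528 * lam ^ 2 * l)) ^ 2 := Nat.pow_le_pow_left h2b'.le 2
  have h2 : (2 ^ b * (528 * lam ^ 2 * l)) ^ 2 = 2 ^ (2 * b) * (278784 * (lam ^ 4 * l ^ 2)) := by
    rw [mul_pow, ← pow_mul, mul_comm b 2]
    ring
  have h3 : 2 ^ (2 * b) * (278784 * (lam ^ 4 * l ^ 2)) ≤
      3840 * (lam ^ 3 * l) * (278784 * (lam ^ 4 * l ^ 2)) := Nat.mul_le_mul_right _ hlt.le
  have h4 : 3840 * (lam ^ 3 * l) * (278784 * (lam ^ 4 * l ^ 2)) =
      1070530560 * lam ^ 7 * l ^ 3 := by ring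
  omega

/-- The sizes of the graph. -/
theorem sizes {n lam l b m a k : ℕ} (hlam : 1 ≤ lam) (hn : n < 2 ^ lam) (hl1 : 1 ≤ l)
    (hblam : b ≤ lam) (h2b : 2 ^ b * (264 * lam ^ 2 * l) ≤ n) (h2112 : 2112 * lam ^ 4 * l ≤ n)
    (hm : m = 64 * (lam * b * l)) (ha : a = m + 2 * lam) (hk : k = 2 * lam) :
    (a * 2) * 2 ^ b * 2 ≤ n ∧ (a * (2 * (b * k))) * 4 * 2 ≤ n ∧
      a * 2 + a * (2 * (b * k)) ≤ n ∧ 4 * (a * (2 * b)) ≤ 2 ^ k ∧ 4 * l < 2 ^ lam := by
  have hbl : lam * b * l ≤ lam ^ 2 * l := by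
    apply Nat.mul_le_mul_right
    rw [sq]
    exact Nat.mul_le_mul_left _ hblam
  have hlaml : lam ≤ lam ^ 2 * l := by
    calc lam = lam * 1 * 1 := by ring
      _ ≤ lam * lam * l := Nat.mul_le_mul (Nat.mul_le_mul_left _ hlam) hl1
      _ = lam ^ 2 * l := by ring
  have ha66 : a ≤ 66 * (lam ^ 2 * l) := by omega
  have hV1 : (a * 2) * 2 ^ b * 2 ≤ n := by
    calc (a * 2) * 2 ^ b * 2 ≤ (66 * (lam ^ 2 * l) * 2) * 2 ^ b * 2 := by
          apply Nat.mul_le_mul_right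
          apply Nat.mul_le_mul_right
          exact Nat.mul_le_mul_right _ ha66
      _ = 2 ^ b * (264 * lam ^ 2 * l) := by ring
      _ ≤ n := h2b
  have hV2 : (a * (2 * (b * k))) * 4 * 2 ≤ n := by
    calc (a * (2 * (b * k))) * 4 * 2 ≤ (66 * (lam ^ 2 * l) * (2 * (lam * (2 * lam)))) * 4 * 2 := by
          apply Nat.mul_le_mul_right
          apply Nat.mul_le_mul_right
          apply Nat.mul_le_mul ha66
          apply Nat.mul_le_mul_left
          rw [hk]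
          exact Nat.mul_le_mul_right _ hblam
      _ = 2112 * lam ^ 4 * l := by ring
      _ ≤ n := h2112
  have h1 : a * 2 ≤ (a * 2) * 2 ^ b := Nat.le_mul_of_pos_right _ (by positivity)
  refine ⟨hV1, hV2, by omega, ?_, ?_⟩
  · have hb2 : b ≤ 2 ^ b := Nat.lt_two_pow_self.le
    have h3 : 4 * (a * (2 * b)) ≤ 2 * n := by
      calc 4 * (a * (2 * b)) ≤ 4 * (a * (2 * 2 ^ b)) :=
            Nat.mul_le_mul_left _ (Nat.mul_le_mul_left _ (Nat.mul_le_mul_left _ hb2))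
        _ = 2 * ((a * 2) * 2 ^ b * 2) := by ring
        _ ≤ 2 * n := Nat.mul_le_mul_left _ hV1
    have h4 : 2 ^ (lam + 1) ≤ 2 ^ k := Nat.pow_le_pow_right (by norm_num) (by omega)
    rw [pow_succ] at h4
    omega
  · have h5 : 4 * l ≤ 2112 * lam ^ 4 * l := by
      apply Nat.mul_le_mul_right
      have : 1 ≤ lam ^ 4 := Nat.one_le_pow _ _ hlam
      omega
    omega

theorem main_case {n lam l s : ℕ} (hn : n < 2 ^ lam) (hl : lam ≤ l) (hlam : 1 ≤ lam)
    (hs : s < 2 ^ l) (hbig : 1070530560 * lam ^ 7 * l ^ 3 < n ^ 2) :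
    ∃ μ : SimpleGraph (Fin (2 * n)) → ℝ, (∀ G, 0 ≤ μ G) ∧ ∑ G, μ G = 1 ∧
      ∀ (d : ℕ) (C : Circuit (Fin (2 * n) × Fin (2 * n))), C.size ≤ s → C.FanIn d →
        (n : ℝ) ^ 2 * ((∑ G, μ G * ind (C.eval (graphInput G) = true ↔ ∃ S, G.IsNClique n S))
            - 1 / 2)
          ≤ 4282122241 * (lam : ℝ) ^ 7 * (l : ℝ) ^ 3 * (d + 1) * 2 ^ C.numOther := by
  have hl1 : 1 ≤ l := le_trans hlam hl
  have hll : 1 ≤ lam * l := Nat.one_le_iff_ne_zero.2 (by positivity)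
  obtain ⟨b, hb1, hblam, hbn, h2b, h2b', hQ2, h2112⟩ := bits hn hl hlam hbig
  set k := 2 * lam with hk
  set m := 64 * (lam * b * l) with hm
  set a := m + 2 * lam with ha
  obtain ⟨hV1, hV2, hG, hrows, h4l⟩ := sizes (k := k) hlam hn hl1 hblam h2b h2112 hm ha hk
  set u := n - (a * 2 + a * (2 * (b * k))) with hu
  have hcardG : Fintype.card (Grp a b k u) = n := by
    simp only [Grp, Fintype.card_sum, Fintype.card_prod, Fintype.card_fin, Fintype.card_bool]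
    omega
  have hcardV : Fintype.card (Vtx a b k u) ≤ 2 * n := by
    simp only [Vtx, Fintype.card_sum, Fintype.card_prod, Fintype.card_fin, Fintype.card_bool,
      Fintype.card_fun, ZMod.card]
    omega
  obtain ⟨f⟩ : Nonempty (Vtx a b k u ↪ Fin (2 * n)) := by
    apply Function.Embedding.nonempty_of_card_le
    rw [Fintype.card_fin]
    exact hcardV
  have ha0 : 0 < a := by omega
  have hm0 : 0 < m := by
    rw [hm]
    have : 0 < lam * b * l := Nat.mul_pos (Nat.mul_pos hlam hb1) hl1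
    omega
  haveI : Nonempty (Vtx a b k u) := ⟨.inl ((⟨0, ha0⟩, false), 0)⟩
  -- the code
  obtain ⟨S, hS⟩ := exists_sparse (R := Row a b) (k := k) (m := m) (2 * (2 * l) * (2 * b)) hm0
    (by
      have : Fintype.card (Row a b) = a * (2 * b) := by
        simp [Row]
      rw [this]
      exact hrows)
    (by
      rw [hm, hk]
      apply le_of_eq
      ring)
  have hspread := spread_code (sparseCode S) (sparseCode_indep S hS)
  -- noise parameters
  set L := 14 * (lam * l) with hL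
  have hL1 : L + 1 ≤ 15 * (lam * l) := by omega
  set q := 256 * lam ^ 2 * (L + 1) with hqdef
  have hq0 : 0 < q := by positivity
  have hq3840 : q ≤ 3840 * (lam ^ 3 * l) := by
    calc q ≤ 256 * lam ^ 2 * (15 * (lam * l)) := Nat.mul_le_mul_left _ hL1
      _ = 3840 * (lam ^ 3 * l) := by ring
  set r := 2 ^ (2 * b) / q with hr
  have hr1 : 1 ≤ r := by
    rw [hr, Nat.le_div_iff_mul_le hq0, one_mul]
    exact le_trans hq3840 hQ2
  have hrQ : r * q ≤ 2 ^ (2 * b) := Nat.div_mul_le_self _ _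
  have hrQ' : 2 ^ (2 * b) < (r + 1) * q := by
    have h1 := Nat.div_add_mod (2 ^ (2 * b)) q
    have h2 := Nat.mod_lt (2 ^ (2 * b)) hq0
    have h3 : (r + 1) * q = q * (2 ^ (2 * b) / q) + q := by rw [hr]; ring
    rw [h3]
    omega
  set D := 2 * (r * (L + 1) * lam) with hD
  have hD0 : 0 < D := by positivity
  have hcov := covers_enNoise (X := Ground a b) hD0 (J := lam) (c := 2 * (2 * l)) hlam (by omega)
  have hκ : (0 : ℝ) ≤ (1 / 2 : ℝ) ^ (2 * b) := pow_nonneg (by norm_num) _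
  have hBκ : 32 * (lam : ℝ) * D * (1 / 2 : ℝ) ^ (2 * b) ≤ 1 / 4 := by
    have h1 : ((r * q : ℕ) : ℝ) ≤ ((2 ^ (2 * b) : ℕ) : ℝ) := by exact_mod_cast hrQ
    have h2 : (1 / 2 : ℝ) ^ (2 * b) * ((2 ^ (2 * b) : ℕ) : ℝ) = 1 := by
      push_cast
      rw [← mul_pow]; norm_num
    have h3 : 32 * (lam : ℝ) * D = ((r * q : ℕ) : ℝ) / 4 := by
      rw [hD, hqdef]
      push_cast
      ring
    rw [h3]
    calc ((r * q : ℕ) : ℝ) / 4 * (1 / 2 : ℝ) ^ (2 * b)
        ≤ ((2 ^ (2 * b) : ℕ) : ℝ) / 4 * (1 / 2 : ℝ) ^ (2 * b) := by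
          apply mul_le_mul_of_nonneg_right _ hκ
          linarith
      _ = 1 / 4 := by linear_combination (1 / 4) * h2
  have hB1 : 1 ≤ 32 * (lam : ℝ) * D := by
    have h1 : (1 : ℝ) ≤ lam := by exact_mod_cast hlam
    have h2 : (1 : ℝ) ≤ D := by exact_mod_cast hD0
    nlinarith
  set N := enNoise (X := Ground a b) hD0 lam with hN
  have hfew : ∀ j < r, N.iter (j * (L + 1))
      (fun U => ind (∃ ω, wordSet (sparseCode S) ω ⊆ U)) ≤ (1 / 2 : ℝ) ^ (2 * lam) := by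
    intro j hj
    refine (few_enNoise hD0 lam (j * (L + 1)) (wordSet (sparseCode S))
      (card_wordSet (sparseCode S))).trans ?_
    rw [Fintype.card_fun, ZMod.card, Fintype.card_fin]
    have h1 : ((j * (L + 1) * lam : ℕ) : ℝ) / (D : ℝ) ≤ 1 / 2 := by
      rw [div_le_iff₀ (by exact_mod_cast hD0)]
      have h2 : 2 * (j * (L + 1) * lam) ≤ D := by
        rw [hD]
        apply Nat.mul_le_mul_left
        apply Nat.mul_le_mul_right
        exact Nat.mul_le_mul_right _ hj.le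
      have h3 : ((2 * (j * (L + 1) * lam) : ℕ) : ℝ) ≤ (D : ℝ) := by exact_mod_cast h2
      push_cast at h3 ⊢
      linarith
    calc (((2 ^ m : ℕ) : ℝ)) * (((j * (L + 1) * lam : ℕ) : ℝ) / (D : ℝ)) ^ a
        ≤ ((2 ^ m : ℕ) : ℝ) * (1 / 2) ^ a := by
          apply mul_le_mul_of_nonneg_left _ (by positivity)
          exact pow_le_pow_left₀ (by positivity) h1 a
      _ = (1 / 2 : ℝ) ^ (2 * lam) := by
          rw [ha, pow_add]
          push_cast
          rw [← mul_assoc, ← mul_pow]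
          norm_num
  have hr2 : r < 2 ^ (2 * lam) := by
    have h1 : r ≤ 2 ^ (2 * b) := Nat.div_le_self _ _
    have h2 : 2 ^ (2 * b) = 2 ^ b * 2 ^ b := by rw [← pow_add]; congr 1; omega
    have h3 : 2 ^ (2 * lam) = 2 ^ lam * 2 ^ lam := by rw [← pow_add]; congr 1; omega
    rw [h3]
    calc r ≤ 2 ^ b * 2 ^ b := by rw [← h2]; exact h1
      _ ≤ n * n := Nat.mul_le_mul hbn hbn
      _ < 2 ^ lam * 2 ^ lam := Nat.mul_lt_mul_of_lt_of_lt hn hn
  have hn2 : n * n < 2 ^ (2 * lam) := by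
    have h3 : 2 ^ (2 * lam) = 2 ^ lam * 2 ^ lam := by rw [← pow_add]; congr 1; omega
    rw [h3]
    exact Nat.mul_lt_mul_of_lt_of_lt hn hn
  have hXcard : Fintype.card (Ground a b) + 1 ≤ 2 ^ (2 * lam) := by
    have h1 : Fintype.card (Ground a b) = a * 2 ^ (2 * b) := by
      simp [Ground, Sym, ZMod.card]
    have h2 : 2 ^ (2 * b) = 2 ^ b * 2 ^ b := by rw [← pow_add]; congr 1; omega
    rw [h1, h2]
    have h4 : a * (2 ^ b * 2 ^ b) ≤ n * n := by
      calc a * (2 ^ b * 2 ^ b) = (a * 2 ^ b) * 2 ^ b := by ring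
        _ ≤ n * n := by
          apply Nat.mul_le_mul _ hbn
          calc a * 2 ^ b ≤ (a * 2 ^ b) * 4 := Nat.le_mul_of_pos_right _ (by norm_num)
            _ = (a * 2) * 2 ^ b * 2 := by ring
            _ ≤ n := hV1
    omega
  have herr := err_bound (X := Ground a b) hl hlam hs hr2 hXcard
  -- the distribution
  set Φ : Finset (Ground a b) → SimpleGraph (Fin (2 * n)) := fun Z =>
    (graphOf (u := u) S Z).map f with hΦ
  refine ⟨pushW N L r (wordSet (sparseCode S)) Φ, fun G => pushW_nonneg _ _,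
    sum_pushW (by omega) Φ, ?_⟩
  intro d C hCs hCd
  rw [sum_pushW_mul]
  have hcl : ∀ Z : Finset (Ground a b), (∃ T, (Φ Z).IsNClique n T) ↔
      ∃ ω, wordSet (sparseCode S) ω ⊆ Z := by
    intro Z
    rw [hΦ]
    simp only
    rw [exists_clique_map, ← clique_iff (u := u) S (by omega) Z, hcardG]
  have hev : ∀ Z : Finset (Ground a b),
      C.eval (graphInput (Φ Z)) = (C.subst (proj S f)).eval (chi Z) := by
    intro Z
    rw [Circuit.eval_subst, pull_proj]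
  simp only [hcl, hev]
  have hscore := score_le (N := N) (v := wordSet (sparseCode S)) (e := 2 * l)
    (by omega : 0 < L) (by omega) hB1 hcov hκ hspread hBκ r s d hfew (C.subst (proj S f))
    (by rw [Circuit.size_subst]; exact hCs) (Circuit.fanIn_subst _ _ hCd)
  rw [Circuit.numOther_subst] at hscore
  set sc := score N L r (wordSet (sparseCode S))
    (fun Z => ind ((C.subst (proj S f)).eval (chi Z) = true ↔
      ∃ ω, wordSet (sparseCode S) ω ⊆ Z)) with hsc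
  set T : ℝ := (2 : ℝ) ^ C.numOther * (1 + d) with hT
  have hT1 : 1 ≤ T := by
    have h1 : (1 : ℝ) ≤ 2 ^ C.numOther := one_le_pow₀ (by norm_num)
    have h2 : (1 : ℝ) ≤ 1 + d := by linarith [(Nat.cast_nonneg d : (0 : ℝ) ≤ d)]
    calc (1 : ℝ) = 1 * 1 := by ring
      _ ≤ _ := mul_le_mul h1 h2 (by norm_num) (by linarith)
  have h3T : T * (3 + r * err (Ground a b) L (2 * l) s) ≤ T * 4 := by
    apply mul_le_mul_of_nonneg_left (by linarith) (by linarith)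
  have hrpos : (0 : ℝ) < r := by exact_mod_cast hr1
  have h4 : sc / (2 * r) - 1 / 2 ≤ T * 4 / (2 * r) + (1 / 2) ^ (2 * lam) / 2 := by
    have h5 : sc ≤ r + T * 4 + r * (1 / 2) ^ (2 * lam) := by linarith
    have h6 : sc / (2 * r) ≤ (r + T * 4 + r * (1 / 2) ^ (2 * lam)) / (2 * r) :=
      div_le_div_of_nonneg_right h5 (by linarith)
    have h7 : (r + T * 4 + r * (1 / 2) ^ (2 * lam)) / (2 * r)
        = 1 / 2 + (T * 4 / (2 * r) + (1 / 2) ^ (2 * lam) / 2) := by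
      field_simp
      ring
    linarith
  have hQr : 2 ^ (2 * b) ≤ 7680 * (lam ^ 3 * l) * r := by
    calc 2 ^ (2 * b) ≤ (r + 1) * q := hrQ'.le
      _ ≤ (2 * r) * (3840 * (lam ^ 3 * l)) := Nat.mul_le_mul (by omega) hq3840
      _ = 7680 * (lam ^ 3 * l) * r := by ring
  have hn2r : n ^ 2 ≤ 2141061120 * lam ^ 7 * l ^ 3 * r := by
    calc n ^ 2 = n * n := by ring
      _ ≤ (2 ^ b * (528 * lam ^ 2 * l)) * (2 ^ b * (528 * lam ^ 2 * l)) :=
          Nat.mul_le_mul h2b'.le h2b'.le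
      _ = 278784 * (lam ^ 4 * l ^ 2) * 2 ^ (2 * b) := by
          rw [two_mul b, pow_add]; ring
      _ ≤ 278784 * (lam ^ 4 * l ^ 2) * (7680 * (lam ^ 3 * l) * r) := Nat.mul_le_mul_left _ hQr
      _ = 2141061120 * lam ^ 7 * l ^ 3 * r := by ring
  have hn2rR : (n : ℝ) ^ 2 ≤ 2141061120 * (lam : ℝ) ^ 7 * (l : ℝ) ^ 3 * r := by
    exact_mod_cast hn2r
  have h8 : (n : ℝ) ^ 2 * (T * 4 / (2 * r)) ≤ 4282122240 * (lam : ℝ) ^ 7 * (l : ℝ) ^ 3 * T := by
    have h9 : (n : ℝ) ^ 2 * (T * 4 / (2 * r))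
        ≤ (2141061120 * (lam : ℝ) ^ 7 * (l : ℝ) ^ 3 * r) * (T * 4 / (2 * r)) := by
      apply mul_le_mul_of_nonneg_right hn2rR
      apply div_nonneg <;> linarith
    have h10 : (2141061120 * (lam : ℝ) ^ 7 * (l : ℝ) ^ 3 * r) * (T * 4 / (2 * r))
        = 4282122240 * (lam : ℝ) ^ 7 * (l : ℝ) ^ 3 * T := by
      field_simp
      ring
    linarith
  have h11 : (n : ℝ) ^ 2 * ((1 / 2) ^ (2 * lam) / 2) ≤ 1 := by
    have h12 : (n : ℝ) ^ 2 ≤ 2 ^ (2 * lam) := by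
      have : n ^ 2 ≤ 2 ^ (2 * lam) := by rw [sq]; exact hn2.le
      exact_mod_cast this
    have h13 : (2 : ℝ) ^ (2 * lam) * (1 / 2) ^ (2 * lam) = 1 := by rw [← mul_pow]; norm_num
    have h14 : (n : ℝ) ^ 2 * (1 / 2) ^ (2 * lam) ≤ 2 ^ (2 * lam) * (1 / 2) ^ (2 * lam) :=
      mul_le_mul_of_nonneg_right h12 (pow_nonneg (by norm_num) _)
    linarith
  have h15 : (1 : ℝ) ≤ (lam : ℝ) ^ 7 * (l : ℝ) ^ 3 * T := by
    have h16 : (1 : ℝ) ≤ (lam : ℝ) ^ 7 := one_le_pow₀ (by exact_mod_cast hlam)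
    have h17 : (1 : ℝ) ≤ (l : ℝ) ^ 3 := one_le_pow₀ (by exact_mod_cast hl1)
    have h18 : (1 : ℝ) ≤ (lam : ℝ) ^ 7 * (l : ℝ) ^ 3 := by
      calc (1 : ℝ) = 1 * 1 := by ring
        _ ≤ _ := mul_le_mul h16 h17 (by norm_num) (by linarith)
    calc (1 : ℝ) = 1 * 1 := by ring
      _ ≤ _ := mul_le_mul h18 hT1 (by norm_num) (by linarith)
  calc (n : ℝ) ^ 2 * (sc / (2 * r) - 1 / 2)
      ≤ (n : ℝ) ^ 2 * (T * 4 / (2 * r) + (1 / 2) ^ (2 * lam) / 2) :=
        mul_le_mul_of_nonneg_left h4 (sq_nonneg _)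
    _ = (n : ℝ) ^ 2 * (T * 4 / (2 * r)) + (n : ℝ) ^ 2 * ((1 / 2) ^ (2 * lam) / 2) := by ring
    _ ≤ 4282122240 * (lam : ℝ) ^ 7 * (l : ℝ) ^ 3 * T + (lam : ℝ) ^ 7 * (l : ℝ) ^ 3 * T := by
        linarith
    _ = 4282122241 * (lam : ℝ) ^ 7 * (l : ℝ) ^ 3 * (d + 1) * 2 ^ C.numOther := by rw [hT]; ring

end Pool.Agent.T9h34.G
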