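import Pool.Agent.T9h34.G.Closed

/-!
The spread lemma for product noise, with minimal fragments.
-/

namespace Pool.Agent.T9h34.G

open Finset

variable {X : Type*} [Fintype X] [DecidableEq X] {ι : Type*}

/-- `T` is a minimal fragment for the noise set `z`. -/
def Fr (I : Finset ι) (F : ι → Finset X) (z T : Finset X) : Prop :=
  ∃ i ∈ I, (∃ j ∈ I, F j ⊆ F i ∪ z ∧ T = F j \ z) ∧
    ∀ j' ∈ I, F j' ⊆ F i ∪ z → T.card ≤ (F j' \ z).card

theorem exists_frag (I : Finset ι) (F : ι → Finset X) (z : Finset X) :
    ∃ T : ι → Finset X, ∀ i ∈ I, (∃ j ∈ I, F j ⊆ F i ∪ z ∧ T i = F j \ z) ∧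
      ∀ j' ∈ I, F j' ⊆ F i ∪ z → (T i).card ≤ (F j' \ z).card := by
  classical
  have h : ∀ i : ι, ∃ T : Finset X, i ∈ I → (∃ j ∈ I, F j ⊆ F i ∪ z ∧ T = F j \ z) ∧
      ∀ j' ∈ I, F j' ⊆ F i ∪ z → T.card ≤ (F j' \ z).card := by
    intro i
    by_cases hi : i ∈ I
    · obtain ⟨j, hj, hmin⟩ := Finset.exists_min_image (I.filter (fun j => F j ⊆ F i ∪ z))
        (fun j => (F j \ z).card) ⟨i, by simp [hi]⟩
      rw [Finset.mem_filter] at hj
      refine ⟨F j \ z, fun _ => ⟨⟨j, hj.1, hj.2, rfl⟩, ?_⟩⟩
      intro j' hj' hsub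
      exact hmin j' (by rw [Finset.mem_filter]; exact ⟨hj', hsub⟩)
    · exact ⟨∅, fun h => absurd h hi⟩
  choose T hT using h
  exact ⟨T, hT⟩

/-- Fill `T` with the first colour. -/
def fill {D : ℕ} (hD : 0 < D) (T : Finset X) (φ : X → Fin D) : X → Fin D :=
  fun x => if x ∈ T then ⟨0, hD⟩ else φ x

theorem zset_fill {D : ℕ} (hD : 0 < D) (T : Finset X) (φ : X → Fin D) :
    zset D (fill hD T φ) = zset D φ ∪ T := by
  ext x
  unfold zset fill
  rw [Finset.mem_union, Finset.mem_filter, Finset.mem_filter]
  by_cases h : x ∈ T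
  · simp [h]
  · simp [h]

theorem card_fill_fiber {D : ℕ} (hD : 0 < D) (T : Finset X) (s : Finset (X → Fin D))
    (ψ : X → Fin D) : (s.filter (fun φ => fill hD T φ = ψ)).card ≤ D ^ T.card := by
  classical
  have h1 : (s.filter (fun φ => fill hD T φ = ψ)).card
      ≤ (Finset.univ : Finset (T → Fin D)).card := by
    apply Finset.card_le_card_of_injOn (fun φ x => φ x.1) (fun _ _ => Finset.mem_univ _)
    intro φ hφ φ' hφ' h
    simp only [Finset.coe_filter, Set.mem_ofPred_eq] at hφ hφ'
    funext x
    by_cases hx : x ∈ T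
    · exact congrFun h ⟨x, hx⟩
    · have h2 := congrFun (hφ.2.trans hφ'.2.symm) x
      simpa [fill, hx] using h2
  refine le_trans h1 ?_
  rw [Finset.card_univ, Fintype.card_fun, Fintype.card_fin, Fintype.card_coe]

open Classical in
/-- The expected number of minimal fragments of size `t`. -/
theorem frag_bound {D : ℕ} (hD : 0 < D) (I : Finset ι) (F : ι → Finset X) (k t : ℕ)
    (hk : ∀ i ∈ I, (F i).card ≤ k) :
    Ez D (fun z => (((univ : Finset (Finset X)).filter
      (fun T => T.card = t ∧ Fr I F z T)).card : ℝ)) ≤ (D : ℝ) ^ t * (k.choose t : ℝ) := by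
  have hD' : (0 : ℝ) < (D : ℝ) ^ Fintype.card X := by positivity
  unfold Ez
  rw [div_le_iff₀ hD']
  have key : ∑ φ : X → Fin D, ((univ : Finset (Finset X)).filter
      (fun T => T.card = t ∧ Fr I F (zset D φ) T)).card
        ≤ D ^ t * (k.choose t) * D ^ Fintype.card X := by
    -- exchange the sums
    have h1 : ∑ φ : X → Fin D, ((univ : Finset (Finset X)).filter
        (fun T => T.card = t ∧ Fr I F (zset D φ) T)).card
        = ∑ T ∈ (univ : Finset (Finset X)).filter (fun T => T.card = t),
          ((univ : Finset (X → Fin D)).filter (fun φ => Fr I F (zset D φ) T)).card := by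
      simp only [Finset.card_filter, Finset.sum_filter]
      rw [Finset.sum_comm]
      apply Finset.sum_congr rfl
      intro T _
      by_cases hT : T.card = t
      · simp [hT]
      · simp [hT]
    have h2 : ∀ T ∈ (univ : Finset (Finset X)).filter (fun T => T.card = t),
        ((univ : Finset (X → Fin D)).filter (fun φ => Fr I F (zset D φ) T)).card
        ≤ D ^ t * ((univ : Finset (X → Fin D)).filter
          (fun ψ => T ⊆ zset D ψ ∧ Fr I F (zset D ψ \ T) T)).card := by
      intro T hT
      rw [Finset.mem_filter] at hT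
      have h3 := Finset.card_le_mul_card_image
        ((univ : Finset (X → Fin D)).filter (fun φ => Fr I F (zset D φ) T)) (D ^ t)
        (f := fill hD T) (by
          intro ψ _
          have := card_fill_fiber hD T
            ((univ : Finset (X → Fin D)).filter (fun φ => Fr I F (zset D φ) T)) ψ
          rw [hT.2] at this
          exact this)
      refine le_trans h3 ?_
      apply Nat.mul_le_mul_left
      apply Finset.card_le_card
      intro ψ hψ
      rw [Finset.mem_image] at hψ
      obtain ⟨φ, hφ, rfl⟩ := hψ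
      rw [Finset.mem_filter] at hφ ⊢
      refine ⟨Finset.mem_univ _, ?_, ?_⟩
      · rw [zset_fill]
        exact Finset.subset_union_right
      · have hdisj : Disjoint (zset D φ) T := by
          obtain ⟨i, _, ⟨j, _, _, hTj⟩, _⟩ := hφ.2
          rw [hTj]
          exact Finset.disjoint_sdiff
        have h4 : zset D (fill hD T φ) \ T = zset D φ := by
          rw [zset_fill, Finset.union_sdiff_right]
          exact Finset.sdiff_eq_self_of_disjoint hdisj
        rw [h4]
        exact hφ.2
    have h5 : ∑ T ∈ (univ : Finset (Finset X)).filter (fun T => T.card = t),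
        ((univ : Finset (X → Fin D)).filter
          (fun ψ => T ⊆ zset D ψ ∧ Fr I F (zset D ψ \ T) T)).card
        = ∑ ψ : X → Fin D, ((univ : Finset (Finset X)).filter
          (fun T => T.card = t ∧ (T ⊆ zset D ψ ∧ Fr I F (zset D ψ \ T) T))).card := by
      simp only [Finset.card_filter, Finset.sum_filter]
      rw [Finset.sum_comm]
      apply Finset.sum_congr rfl
      intro T _
      by_cases hT : T.card = t
      · simp [hT]
      · simp [hT]
    have h6 : ∀ ψ : X → Fin D, ((univ : Finset (Finset X)).filter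
          (fun T => T.card = t ∧ (T ⊆ zset D ψ ∧ Fr I F (zset D ψ \ T) T))).card
          ≤ k.choose t := by
      intro ψ
      set Z := zset D ψ with hZ
      by_cases hne : ∃ j ∈ I, F j ⊆ Z
      · obtain ⟨j, hj, hjZ⟩ := hne
        have hsub : (univ : Finset (Finset X)).filter
            (fun T => T.card = t ∧ (T ⊆ Z ∧ Fr I F (Z \ T) T)) ⊆ (F j).powersetCard t := by
          intro T hT
          rw [Finset.mem_filter] at hT
          obtain ⟨_, hTt, hTZ, i, hi, ⟨j', hj', hsub', hTj'⟩, hmin⟩ := hT
          rw [Finset.mem_powersetCard]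
          refine ⟨?_, hTt⟩
          have hTi : T ⊆ F i := by
            intro x hx
            have hx2 := hx
            rw [hTj', Finset.mem_sdiff] at hx
            rcases Finset.mem_union.1 (hsub' hx.1) with h | h
            · exact h
            · exact absurd h hx.2
          have h7 : F j ⊆ F i ∪ (Z \ T) := by
            intro x hx
            rw [Finset.mem_union, Finset.mem_sdiff]
            by_cases hxT : x ∈ T
            · exact Or.inl (hTi hxT)
            · exact Or.inr ⟨hjZ hx, hxT⟩
          have h8 := hmin j hj h7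
          have h9 : F j \ (Z \ T) ⊆ T := by
            intro x hx
            rw [Finset.mem_sdiff, Finset.mem_sdiff] at hx
            by_contra hxT
            exact hx.2 ⟨hjZ hx.1, hxT⟩
          have h10 : F j \ (Z \ T) = T := Finset.eq_of_subset_of_card_le h9 h8
          rw [← h10]
          exact Finset.sdiff_subset
        refine le_trans (Finset.card_le_card hsub) ?_
        rw [Finset.card_powersetCard]
        exact Nat.choose_le_choose t (hk j hj)
      · have hempty : (univ : Finset (Finset X)).filter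
            (fun T => T.card = t ∧ (T ⊆ Z ∧ Fr I F (Z \ T) T)) = ∅ := by
          rw [Finset.eq_empty_iff_forall_notMem]
          intro T hT
          rw [Finset.mem_filter] at hT
          obtain ⟨_, _, hTZ, i, hi, ⟨j', hj', hsub', hTj'⟩, hmin⟩ := hT
          apply hne
          refine ⟨j', hj', ?_⟩
          intro x hx
          by_cases hx2 : x ∈ Z \ T
          · exact (Finset.mem_sdiff.1 hx2).1
          · have : x ∈ T := by
              rw [hTj', Finset.mem_sdiff]
              exact ⟨hx, hx2⟩
            exact hTZ this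
        rw [hempty]
        simp
    rw [h1]
    refine le_trans (Finset.sum_le_sum h2) ?_
    rw [← Finset.mul_sum, h5]
    have h7 := Finset.sum_le_sum (fun ψ (_ : ψ ∈ (univ : Finset (X → Fin D))) => h6 ψ)
    rw [Finset.sum_const, Finset.card_univ, Fintype.card_fun, Fintype.card_fin, smul_eq_mul] at h7
    calc _ ≤ D ^ t * (D ^ Fintype.card X * k.choose t) := Nat.mul_le_mul_left _ h7
      _ = D ^ t * (k.choose t) * D ^ Fintype.card X := by ring
  have h8 : ((∑ φ : X → Fin D, ((univ : Finset (Finset X)).filter
      (fun T => T.card = t ∧ Fr I F (zset D φ) T)).card : ℕ) : ℝ)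
      ≤ ((D ^ t * (k.choose t) * D ^ Fintype.card X : ℕ) : ℝ) := by exact_mod_cast key
  push_cast at h8
  exact h8

theorem geom_le {y : ℝ} (hy0 : 0 ≤ y) (hy : y ≤ 1 / 2) (a b : ℕ) :
    ∑ t ∈ Finset.Ioc a b, y ^ t ≤ 2 * y := by
  have h1 : ∑ t ∈ Finset.Ioc a b, y ^ t ≤ ∑ t ∈ Finset.Ioc 0 b, y ^ t := by
    apply Finset.sum_le_sum_of_subset_of_nonneg
    · intro t ht
      rw [Finset.mem_Ioc] at ht ⊢
      omega
    · intro t _ _
      positivity
  refine le_trans h1 ?_
  have h2 : ∀ b : ℕ, ∑ t ∈ Finset.Ioc 0 b, y ^ t ≤ 2 * y - 2 * y ^ (b + 1) := by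
    intro b
    induction b with
    | zero => simp
    | succ b ih =>
      rw [Finset.sum_Ioc_succ_top (Nat.zero_le b)]
      have h3 : y ^ (b + 1) * y ≤ y ^ (b + 1) * (1 / 2) :=
        mul_le_mul_of_nonneg_left hy (by positivity)
      rw [pow_succ y (b + 1)]
      linarith
  have h3 := h2 b
  have h4 : 0 ≤ y ^ (b + 1) := by positivity
  linarith

end Pool.Agent.T9h34.G
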